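import Pool.Agent.Helper8_LeonardPos.Frame

set_option autoImplicit false

/-!
The Askey-Wilson relation in the case `β = 2`.
-/

namespace Pool.Agent.Helper8LeonardPos

open Module Pool.Agent.Helper8Leonard

universe u v

variable {K : Type u} [Field K] {V : Type v} [AddCommGroup V] [Module K V] {d : ℕ}

/-- The map `A²X - 2AXA + XA² - γ(AX+XA) - ρX`. -/
def FF (A : Module.End K V) (γ ρ : K) (X : Module.End K V) : Module.End K V :=
  A * A * X - (2 : K) • (A * X * A) + X * A * A - γ • (A * X + X * A) - ρ • X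

/-- Sequences with constant second difference. -/
def Quad (d : ℕ) (a : ℕ → K) (γ ρ : K) : Prop :=
  (∀ i, i + 2 ≤ d → a i - 2 * a (i + 1) + a (i + 2) = γ) ∧
  (∀ i, i < d → (a i - a (i + 1)) ^ 2 - γ * (a i + a (i + 1)) = ρ)

lemma quad_of (a : ℕ → K) (γ : K) (h : ∀ i, i + 2 ≤ d → a i - 2 * a (i + 1) + a (i + 2) = γ) :
    Quad d a γ ((a 0 - a 1) ^ 2 - γ * (a 0 + a 1)) := by
  refine ⟨h, ?_⟩
  intro i
  induction i with
  | zero => intro _; rfl
  | succ i ih =>
    intro hi
    have h1 := ih (by omega)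
    have h2 := h i (by omega)
    rw [← h1]
    linear_combination (a (i + 2) - a i) * h2

lemma quad_rv {a : ℕ → K} {γ ρ : K} (h : Quad d a γ ρ) : Quad d (fun i => a (d - i)) γ ρ := by
  constructor
  · intro i hi
    have := h.1 (d - (i + 2)) (by omega)
    rw [show d - (i + 2) + 1 = d - (i + 1) by omega, show d - (i + 2) + 2 = d - i by omega] at this
    simp only
    rw [← this]; ring
  · intro i hi
    have := h.2 (d - (i + 1)) (by omega)
    rw [show d - (i + 1) + 1 = d - i by omega] at this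
    simp only
    rw [← this]; ring

lemma FF_dia {v : Basis (Fin (d + 1)) K V} {A X : Module.End K V} {a : ℕ → K} {γ ρ : K}
    (hA : Dia v A a) (hq : Quad d a γ ρ) (hX : IsTri v X) :
    Dia v (FF A γ ρ X) (fun i => md v X i * (-2 * γ * a i - ρ)) := by
  have hup : ∀ i, up v X i * ((a i - a (i + 1)) ^ 2 - γ * (a i + a (i + 1)) - ρ) = 0 := by
    intro i
    rcases Nat.lt_or_ge i d with hi | hi
    · rw [hq.2 i hi, sub_self, mul_zero]
    · unfold up; rw [ent_gt v X (by omega), zero_mul]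
  have hdn : ∀ i, dn v X i * ((a i - a (i + 1)) ^ 2 - γ * (a i + a (i + 1)) - ρ) = 0 := by
    intro i
    rcases Nat.lt_or_ge i d with hi | hi
    · rw [hq.2 i hi, sub_self, mul_zero]
    · unfold dn; rw [ent_gt v X (by omega), zero_mul]
  intro i
  rcases i with _ | i
  · simp only [FF, LinearMap.add_apply, LinearMap.sub_apply, LinearMap.smul_apply,
      Module.End.mul_apply, col_zero hX, map_add, map_smul, hA 0, hA 1]
    linear_combination (norm := module) (hup 0) • nv v 1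
  · simp only [FF, LinearMap.add_apply, LinearMap.sub_apply, LinearMap.smul_apply,
      Module.End.mul_apply, col_succ hX, map_add, map_smul, hA i, hA (i + 1), hA (i + 2)]
    linear_combination (norm := module) (hup (i + 1)) • nv v (i + 2) + (hdn i) • nv v i

lemma sub_comb_comm {A Y : Module.End K V} (h : A * Y = Y * A) (g2 g1 g0 : K) :
    A * (Y - (g2 • (A * A) + g1 • A + g0 • 1)) = (Y - (g2 • (A * A) + g1 • A + g0 • 1)) * A := by
  simp only [mul_sub, sub_mul, mul_add, add_mul, mul_smul_comm, smul_mul_assoc, h, mul_one,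
    one_mul, mul_assoc]

/-- The Askey-Wilson relation. -/
theorem aw {v w : Basis (Fin (d + 1)) K V} {A X : Module.End K V} {a x : ℕ → K} {γ ρ : K}
    (hd : 2 ≤ d) (hA : Dia v A a) (hq : Quad d a γ ρ) (hXv : IsTri v X) (hAw : Irr w A)
    (hXw : Dia w X x) :
    ∃ g1 g0 : K, FF A γ ρ X = (x 0 - 2 * x 1 + x 2) • (A * A) + g1 • A + g0 • 1 := by
  have hp0 := hAw.2.1 0 (by omega)
  have hp1 := hAw.2.1 1 (by omega)
  set p0 := up w A 0 with hp0'
  set p1 := up w A 1 with hp1'
  set p2 := up w A 2 with hp2'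
  set m0 := md w A 0 with hm0'
  set m1 := md w A 1 with hm1'
  set m2 := md w A 2 with hm2'
  set q0 := dn w A 0 with hq0'
  set q1 := dn w A 1 with hq1'
  have c0 : A (nv w 0) = m0 • nv w 0 + p0 • nv w 1 := col_zero hAw.1
  have c1 : A (nv w 1) = q0 • nv w 0 + m1 • nv w 1 + p1 • nv w 2 := col_succ hAw.1 0
  have c2 : A (nv w 2) = q1 • nv w 1 + m2 • nv w 2 + p2 • nv w 3 := col_succ hAw.1 1
  obtain ⟨g1, hg1⟩ : ∃ g1 : K, p0 * g1 = (x 0 * (m0 * p0 + p0 * m1) - 2 * (m0 * x 0 * p0 +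
      p0 * x 1 * m1) + p0 * (m0 + m1) * x 1 - γ * (x 0 * p0 + p0 * x 1))
      - (x 0 - 2 * x 1 + x 2) * (p0 * (m0 + m1)) := ⟨_, mul_div_cancel₀ _ hp0⟩
  refine ⟨g1, (x 0 * (m0 * m0 + p0 * q0) - 2 * (m0 * x 0 * m0 + p0 * x 1 * q0)
      + (m0 * m0 + p0 * q0) * x 0 - γ * (x 0 * m0 + m0 * x 0) - ρ * x 0)
      - (x 0 - 2 * x 1 + x 2) * (m0 * m0 + p0 * q0) - g1 * m0, ?_⟩
  rw [← sub_eq_zero]
  apply eq_zero_of_comm hAw (sub_comb_comm (comm_of_dia hA (FF_dia hA hq hXv)) _ _ _)
  simp only [FF, LinearMap.add_apply, LinearMap.sub_apply, LinearMap.smul_apply,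
    Module.End.mul_apply, Module.End.one_apply, c0, c1, map_add, map_smul, hXw 0, hXw 1, hXw 2]
  linear_combination (norm := module) (-hg1) • nv w 1

end Pool.Agent.Helper8LeonardPos
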