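import Pool.Agent.Helper8_LeonardPos.Ratio

set_option autoImplicit false

/-!
The third member of a Leonard triple in terms of the first two.
-/

namespace Pool.Agent.Helper8LeonardPos

open Module Pool.Agent.Helper8Leonard

universe u v

variable {K : Type u} [Field K] {V : Type v} [AddCommGroup V] [Module K V] {d : ℕ}

lemma dia_of_offdiag {w : Basis (Fin (d + 1)) K V} {X : Module.End K V} (hX : IsTri w X)
    (h1 : ∀ i < d, up w X i = 0) (h2 : ∀ i < d, dn w X i = 0) : Dia w X (md w X) := by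
  have h1' : ∀ i, up w X i = 0 := by
    intro i
    rcases Nat.lt_or_ge i d with hi | hi
    · exact h1 i hi
    · unfold up; exact ent_gt w X (by omega)
  have h2' : ∀ i, dn w X i = 0 := by
    intro i
    rcases Nat.lt_or_ge i d with hi | hi
    · exact h2 i hi
    · unfold dn; exact ent_gt w X (by omega)
  intro i
  rcases i with _ | i
  · rw [col_zero hX, h1', zero_smul, add_zero]
  · rw [col_succ hX, h1', h2', zero_smul, zero_smul, zero_add, add_zero]

/-- A tridiagonal map commuting with an irreducible tridiagonal map `B` is affine in `B`. -/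
lemma affine_of_comm {v : Basis (Fin (d + 1)) K V} {B X : Module.End K V} (hd : 1 ≤ d)
    (hX : IsTri v X) (hB : Irr v B) (hc : B * X = X * B) :
    X = (up v X 0 / up v B 0) • B + (md v X 0 - up v X 0 / up v B 0 * md v B 0) • 1 := by
  have hne := hB.2.1 0 (by omega)
  rw [← sub_eq_zero]
  apply eq_zero_of_comm hB
  · simp only [mul_sub, sub_mul, mul_add, add_mul, mul_smul_comm, smul_mul_assoc, hc, mul_one,
      one_mul]
  · simp only [LinearMap.add_apply, LinearMap.sub_apply, LinearMap.smul_apply,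
      Module.End.one_apply, col_zero hX, col_zero hB.1]
    have : up v X 0 / up v B 0 * up v B 0 = up v X 0 := div_mul_cancel₀ _ hne
    linear_combination (norm := module) (-this) • nv v 1

lemma up_sub (b : Basis (Fin (d + 1)) K V) (X Y : Module.End K V) (i : ℕ) :
    up b (X - Y) i = up b X i - up b Y i := by
  unfold up ent; rw [LinearMap.sub_apply, map_sub]

lemma dn_sub (b : Basis (Fin (d + 1)) K V) (X Y : Module.End K V) (i : ℕ) :
    dn b (X - Y) i = dn b X i - dn b Y i := by
  unfold dn ent; rw [LinearMap.sub_apply, map_sub]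

lemma up_smul (b : Basis (Fin (d + 1)) K V) (X : Module.End K V) (c : K) (i : ℕ) :
    up b (c • X) i = c * up b X i := by
  unfold up ent; rw [LinearMap.smul_apply, map_smul, smul_eq_mul]

lemma dn_smul (b : Basis (Fin (d + 1)) K V) (X : Module.End K V) (c : K) (i : ℕ) :
    dn b (c • X) i = c * dn b X i := by
  unfold dn ent; rw [LinearMap.smul_apply, map_smul, smul_eq_mul]

lemma up_comm {w : Basis (Fin (d + 1)) K V} {A B : Module.End K V} {b : ℕ → K} (hB : Dia w B b)
    (i : ℕ) : up w (A * B - B * A) i = (b i - b (i + 1)) * up w A i := by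
  unfold up ent
  rw [LinearMap.sub_apply, map_sub, Module.End.mul_apply, Module.End.mul_apply, hB i, map_smul,
    map_smul, row_dia hB, smul_eq_mul]
  ring

lemma dn_comm {w : Basis (Fin (d + 1)) K V} {A B : Module.End K V} {b : ℕ → K} (hB : Dia w B b)
    (i : ℕ) : dn w (A * B - B * A) i = (b (i + 1) - b i) * dn w A i := by
  unfold dn ent
  rw [LinearMap.sub_apply, map_sub, Module.End.mul_apply, Module.End.mul_apply, hB (i + 1),
    map_smul, map_smul, row_dia hB, smul_eq_mul]
  ring

/-- General form of the argument. -/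
lemma comb_of {v w : Basis (Fin (d + 1)) K V} {A B C : Module.End K V} {a b : ℕ → K}
    (hd : 1 ≤ d) (hAv : Dia v A a) (hBv : Irr v B) (hCv : IsTri v C)
    (hBw : Dia w B b) (hAw : Irr w A) (hCw : IsTri w C) (μ lam : K)
    (h1 : ∀ i < d, up w C i = (μ + lam * (b i - b (i + 1))) * up w A i)
    (h2 : ∀ i < d, dn w C i = (μ + lam * (b (i + 1) - b i)) * dn w A i) :
    ∃ c0 c2 : K, C = c0 • 1 + μ • A + c2 • B + lam • (A * B - B * A) := by
  set X : Module.End K V := C - μ • A - lam • (A * B - B * A) with hX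
  have hXw : IsTri w X :=
    (hCw.sub (hAw.1.smul μ)).sub (((hAw.1.mul_dia hBw).sub (hAw.1.dia_mul hBw)).smul lam)
  have hXd : Dia w X (md w X) := by
    apply dia_of_offdiag hXw
    · intro i hi
      rw [hX, up_sub, up_sub, up_smul, up_smul, up_comm hBw, h1 i hi]
      ring
    · intro i hi
      rw [hX, dn_sub, dn_sub, dn_smul, dn_smul, dn_comm hBw, h2 i hi]
      ring
  have hXv : IsTri v X :=
    (hCv.sub ((isTri_of_dia hAv).smul μ)).sub
      (((hBv.1.dia_mul hAv).sub (hBv.1.mul_dia hAv)).smul lam)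
  have hc : B * X = X * B := comm_of_dia hBw hXd
  obtain ⟨c0, c2, e⟩ : ∃ c0 c2 : K, X = c2 • B + c0 • 1 := ⟨_, _, affine_of_comm hd hXv hBv hc⟩
  refine ⟨c0, c2, ?_⟩
  have h3 : C = X + μ • A + lam • (A * B - B * A) := by rw [hX]; abel
  rw [h3, e]
  abel

/-- The data of a Leonard triple. -/
structure Triple (d : ℕ) (v w u : Basis (Fin (d + 1)) K V) (A B C : Module.End K V)
    (a b c : ℕ → K) : Prop where
  Av : Dia v A a
  Bv : Irr v B
  Cv : Irr v C
  Bw : Dia w B b
  Aw : Irr w A
  Cw : Irr w C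
  Cu : Dia u C c
  Au : Irr u A
  Bu : Irr u B

/-- Classification. -/
theorem classify [CharZero K] {v w u : Basis (Fin (d + 1)) K V} {A B C : Module.End K V}
    {a b c : ℕ → K} (T : Triple d v w u A B C a b c) (hd : 3 ≤ d) {γ : K}
    (hγ : ∀ i, i + 2 ≤ d → a i - 2 * a (i + 1) + a (i + 2) = γ) :
    ∃ γ' γ'' : K, (∀ i, i + 2 ≤ d → b i - 2 * b (i + 1) + b (i + 2) = γ') ∧
      (∃ c0 c1 c2 c3 : K, C = c0 • 1 + c1 • A + c2 • B + c3 • (A * B - B * A) ∧
        ((γ ≠ 0 ∧ γ' ≠ 0 ∧ c3 = 0 ∧ γ'' = - c1 * γ ∧ γ'' = - c2 * γ' ∧ γ'' ≠ 0) ∨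
          (γ = 0 ∧ γ' = 0))) := by
  have qA := quad_of a γ hγ
  obtain ⟨_, _, AB⟩ := aw (by omega) T.Av qA T.Bv.1 T.Aw T.Bw
  have qB := quad_of b _ (second_diff T.Aw T.Bw AB)
  obtain ⟨_, _, AC⟩ := aw (by omega) T.Av qA T.Cv.1 T.Au T.Cu
  have qC := quad_of c _ (second_diff T.Au T.Cu AC)
  set γ' := b 0 - 2 * b 1 + b 2 with hγ'
  set γ'' := c 0 - 2 * c 1 + c 2 with hγ''
  obtain ⟨_, _, BC⟩ := aw (by omega) T.Bw qB T.Cw.1 T.Bu T.Cu
  obtain ⟨_, _, CA⟩ := aw (by omega) T.Cu qC T.Au.1 T.Cv T.Av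
  obtain ⟨_, _, CB⟩ := aw (by omega) T.Cu qC T.Bu.1 T.Cw T.Bw
  rw [hγ 0 (by omega)] at CA
  rw [← hγ''] at BC
  rw [← hγ'] at CB
  refine ⟨γ', γ'', second_diff T.Aw T.Bw AB, ?_⟩
  obtain ⟨r, hr0, hr, hr'⟩ := ratio hd T.Aw T.Cw AC CA
  obtain ⟨t, ht0, ht, ht'⟩ := ratio hd (irr_rv T.Aw) (irr_rv T.Cw) AC CA
  obtain ⟨p, hp0, hp, hp'⟩ := ratio hd T.Bv T.Cv BC CB
  have ht2 : ∀ i < d, dn w C i = t * dn w A i := by
    intro i hi
    have := ht (d - 1 - i) (by omega)
    rw [up_rv w C (by omega), up_rv w A (by omega)] at this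
    rwa [show d - 1 - (d - 1 - i) = i by omega] at this
  by_cases h0 : γ = 0
  · have hg'' : γ'' = 0 := by rw [hr', h0, mul_zero]
    have hg' : γ' = 0 := by
      rw [hg''] at hp'
      have : p * γ' = 0 := by linear_combination hp'
      exact (mul_eq_zero.1 this).resolve_left hp0
    -- constant first difference
    have hD : ∀ i < d, b (i + 1) - b i = b 1 - b 0 := by
      intro i
      induction i with
      | zero => intro _; rfl
      | succ i ih =>
        intro hi
        have h1 := qB.1 i (by omega)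
        rw [hg'] at h1
        rw [← ih (by omega)]
        linear_combination h1
    have hD0 : b 1 - b 0 ≠ 0 := by
      intro h
      have := dia_inj T.Bw T.Bv 1 (by omega) 0 (by omega) (sub_eq_zero.1 h)
      omega
    have h2 : (2 : K) ≠ 0 := two_ne_zero
    obtain ⟨c0, c2, hC⟩ := comb_of (by omega) T.Av T.Bv T.Cv.1 T.Bw T.Aw T.Cw.1 ((r + t) / 2)
      ((t - r) / (2 * (b 1 - b 0))) (by
        intro i hi
        rw [hr i hi]
        congr 1
        have : b i - b (i + 1) = - (b 1 - b 0) := by rw [← hD i hi]; ring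
        rw [this]
        field_simp
        ring) (by
        intro i hi
        rw [ht2 i hi]
        congr 1
        rw [hD i hi]
        field_simp
        ring)
    exact ⟨c0, _, c2, _, hC, Or.inr ⟨h0, hg'⟩⟩
  · have hg'' : γ'' ≠ 0 := by rw [hr']; exact mul_ne_zero (neg_ne_zero.2 hr0) h0
    have hrt : r = t := by
      have : r * γ = t * γ := by linear_combination hr' - ht'
      exact mul_right_cancel₀ h0 this
    have hg' : γ' ≠ 0 := by
      intro h
      apply hg''
      rw [hp', h, mul_zero]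
    obtain ⟨c0, c2, hC⟩ := comb_of (by omega) T.Av T.Bv T.Cv.1 T.Bw T.Aw T.Cw.1 r 0 (by
        intro i hi
        rw [hr i hi]
        ring) (by
        intro i hi
        rw [ht2 i hi, hrt]
        ring)
    refine ⟨c0, r, c2, 0, hC, Or.inl ⟨h0, hg', rfl, hr', ?_, hg''⟩⟩
    have e1 := hp 0 (by omega)
    have e2 : up v C 0 = c2 * up v B 0 := by
      rw [hC]
      unfold up ent
      simp only [zero_smul, add_zero, LinearMap.add_apply, LinearMap.smul_apply,
        Module.End.one_apply, map_add, map_smul, smul_eq_mul, T.Av 0]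
      rw [nc_ne v (i := 0) (j := 0 + 1) (by omega)]
      ring
    have e3 : c2 = p := by
      rw [e1] at e2
      exact (mul_right_cancel₀ (T.Bv.2.1 0 (by omega)) e2).symm
    rw [e3]
    exact hp'

end Pool.Agent.Helper8LeonardPos
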