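import Pool.Agent.Helper8_LeonardPos.Split

set_option autoImplicit false

/-!
The split sequence of a Leonard pair with `β = 2`.
-/

namespace Pool.Agent.Helper8LeonardPos

open Module Pool.Agent.Helper8Leonard

universe u v

variable {K : Type u} [Field K] {V : Type v} [AddCommGroup V] [Module K V] {d : ℕ}

lemma quad_form [CharZero K] (a : ℕ → K) (κ : K)
    (h : ∀ i, i + 2 ≤ d → a i - 2 * a (i + 1) + a (i + 2) = 8 * κ) :
    ∃ α0 α1 : K, ∀ i ≤ d, a i = α0 + α1 * ((d : K) - 2 * i) + κ * ((d : K) - 2 * i) ^ 2 := by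
  obtain ⟨α1, h1⟩ : ∃ α1 : K, 2 * α1 = - (a 1 - a 0 - 4 * κ + 4 * κ * d) :=
    ⟨_, mul_div_cancel₀ _ two_ne_zero⟩
  refine ⟨a 0 - α1 * d - κ * d ^ 2, α1, ?_⟩
  intro i
  induction i using Nat.strong_induction_on with
  | _ i ih =>
    intro hi
    rcases i with _ | _ | i
    · push_cast; ring
    · push_cast
      linear_combination h1
    · have e1 := ih i (by omega) (by omega)
      have e2 := ih (i + 1) (by omega) (by omega)
      have e3 := h i hi
      rw [e1, e2] at e3
      push_cast at e3 ⊢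
      linear_combination e3

/-- second difference of the split sequence -/
lemma phi_second {s : Basis (Fin (d + 1)) K V} {A B : Module.End K V} {a b φ : ℕ → K}
    {γ ρ γ' g1 g0 : K}
    (hA : ∀ i, A (nv s i) = a i • nv s i + nv s (i + 1))
    (hB0 : B (nv s 0) = b 0 • nv s 0)
    (hB : ∀ i, B (nv s (i + 1)) = b (i + 1) • nv s (i + 1) + φ (i + 1) • nv s i)
    (hφ0 : φ 0 = 0)
    (h : FF A γ ρ B = γ' • (A * A) + g1 • A + g0 • 1) :
    ∀ i, i + 1 ≤ d → φ i - 2 * φ (i + 1) + φ (i + 2) = (a (i + 1) - a i) * (b (i + 1) - b i)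
      + γ * (b i + b (i + 1)) + γ' * (a i + a (i + 1)) + g1 := by
  intro i hi
  rcases i with _ | i
  · have e := congrArg (fun T : Module.End K V => nc s 1 (T (nv s 0))) h
    have hB1 := hB 0
    have hB2 := hB 1
    have hA0 := hA 0
    have hA1 := hA 1
    have hA2 := hA 2
    simp only [zero_add, Nat.reduceAdd] at hB1 hB2 hA0 hA1 hA2
    simp only [FF, LinearMap.add_apply, LinearMap.sub_apply, LinearMap.smul_apply,
      Module.End.mul_apply, Module.End.one_apply, map_add, map_sub, map_smul, smul_eq_mul,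
      hA0, hA1, hA2, hB0, hB1, hB2] at e
    rw [nc_ne s (i := 0) (j := 1) (by omega), nc_self s (i := 1) hi,
      nc_ne s (i := 2) (j := 1) (by omega)] at e
    simp only [zero_add]
    rw [hφ0]
    linear_combination e
  · have e := congrArg (fun T : Module.End K V => nc s (i + 2) (T (nv s (i + 1)))) h
    have hB1 := hB i
    have hB2 := hB (i + 1)
    have hB3 := hB (i + 2)
    have hA0 := hA i
    have hA1 := hA (i + 1)
    have hA2 := hA (i + 2)
    simp only [add_assoc, Nat.reduceAdd] at hB1 hB2 hB3 hA0 hA1 hA2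
    simp only [FF, LinearMap.add_apply, LinearMap.sub_apply, LinearMap.smul_apply,
      Module.End.mul_apply, Module.End.one_apply, map_add, map_sub, map_smul, smul_eq_mul,
      hA0, hA1, hA2, hB1, hB2, hB3] at e
    rw [nc_ne s (i := i) (j := i + 2) (by omega), nc_ne s (i := i + 1) (j := i + 2) (by omega),
      nc_self s (i := i + 2) (by omega), nc_ne s (i := i + 3) (j := i + 2) (by omega)] at e
    simp only [add_assoc, Nat.reduceAdd]
    linear_combination e

/-- the split sequence -/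
theorem phi_form [CharZero K] {a b φ : ℕ → K} {κ κ' α0 α1 β0 β1 g1 : K}
    (ha : ∀ i ≤ d, a i = α0 + α1 * ((d : K) - 2 * i) + κ * ((d : K) - 2 * i) ^ 2)
    (hb : ∀ i ≤ d, b i = β0 + β1 * ((d : K) - 2 * i) + κ' * ((d : K) - 2 * i) ^ 2)
    (hφ0 : φ 0 = 0) (hφd : φ (d + 1) = 0)
    (h : ∀ i, i + 1 ≤ d → φ i - 2 * φ (i + 1) + φ (i + 2) = (a (i + 1) - a i) * (b (i + 1) - b i)
      + 8 * κ * (b i + b (i + 1)) + 8 * κ' * (a i + a (i + 1)) + g1) :
    ∃ P : K, ∀ i ≤ d + 1, φ i = - 4 * i * ((d : K) + 1 - i) *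
      (P + (- 2 * κ * κ' + α1 * κ' + β1 * κ) * ((d : K) + 2 - 2 * i)
        + κ * κ' * ((d : K) + 2 - 2 * i) ^ 2) := by
  obtain ⟨c0, hc0⟩ : ∃ c0 : K, 8 * c0 = 4 * α1 * β1 + 16 * κ * (β0 + κ') + 16 * κ' * (α0 + κ) + g1
      - 32 * κ * κ' + 8 * ((d : K) + 1) ^ 2 * κ * κ' :=
    ⟨_, mul_div_cancel₀ _ (by norm_num)⟩
  set S : K := - 2 * κ * κ' + α1 * κ' + β1 * κ with hS
  set P : K := c0 - S - κ * κ' with hP
  set f : ℕ → K := fun i => - 4 * i * ((d : K) + 1 - i) *
      (P + S * ((d : K) + 2 - 2 * i) + κ * κ' * ((d : K) + 2 - 2 * i) ^ 2) with hf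
  refine ⟨P, ?_⟩
  set g : ℕ → K := fun i => φ i - f i with hg
  have hg0 : g 0 = 0 := by
    simp only [hg, hf, hφ0]; push_cast; ring
  have hgd : g (d + 1) = 0 := by
    simp only [hg, hf, hφd]; push_cast; ring
  have hg2 : ∀ i, i + 1 ≤ d → g i - 2 * g (i + 1) + g (i + 2) = 0 := by
    intro i hi
    have e := h i hi
    rw [ha i (by omega), ha (i + 1) (by omega), hb i (by omega), hb (i + 1) (by omega)] at e
    simp only [hg, hf, hP]
    push_cast at e ⊢
    rw [hS]
    linear_combination e - hc0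
  have hglin : ∀ i, i ≤ d + 1 → g i = i * g 1 := by
    intro i
    induction i using Nat.strong_induction_on with
    | _ i ih =>
      intro hi
      rcases i with _ | _ | i
      · rw [hg0]; push_cast; ring
      · push_cast; ring
      · have e1 := ih i (by omega) (by omega)
        have e2 := ih (i + 1) (by omega) (by omega)
        have e3 := hg2 i (by omega)
        rw [e1, e2] at e3
        push_cast at e3 ⊢
        linear_combination e3
  have hg1 : g 1 = 0 := by
    have e := hglin (d + 1) le_rfl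
    rw [hgd] at e
    have hne : (((d + 1 : ℕ)) : K) ≠ 0 := by exact_mod_cast Nat.succ_ne_zero d
    exact (mul_eq_zero.1 e.symm).resolve_left hne
  intro i hi
  have e := hglin i hi
  rw [hg1, mul_zero] at e
  simp only [hg] at e
  rw [sub_eq_zero] at e
  rw [e]

end Pool.Agent.Helper8LeonardPos
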