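import Pool.Agent.Helper8_LeonardPos.Rep
import Pool.Agent.Helper8_LeonardPos.Phi
import Pool.Agent.Helper8_LeonardPos.Class

set_option autoImplicit false

/-!
The case of arithmetic eigenvalue sequences.
-/

namespace Pool.Agent.Helper8LeonardPos

open Module Pool.Agent.Helper8Leonard

universe u v

variable {K : Type u} [Field K] {V : Type v} [AddCommGroup V] [Module K V] {d : ℕ}

/-- A Leonard pair has no common eigenvector. -/
lemma no_common {v w : Basis (Fin (d + 1)) K V} {X Y : Module.End K V} {a : ℕ → K} (hd : 1 ≤ d)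
    (hX : Dia v X a) (hXw : Irr w X) (hY : Irr v Y) {r : V} (hr : r ≠ 0) {p q : K}
    (h1 : X r = p • r) (h2 : Y r = q • r) : False := by
  obtain ⟨i, hi, hc⟩ : ∃ i ≤ d, nc v i r ≠ 0 := by
    by_contra hcon
    push Not at hcon
    apply hr
    apply vec_ext v
    intro i hi
    rw [hcon i hi, map_zero]
  have hp : a i = p := by
    have e := congrArg (nc v i) h1
    rw [row_dia hX, map_smul, smul_eq_mul] at e
    exact mul_right_cancel₀ hc e
  have h0 : ∀ j ≤ d, j ≠ i → nc v j r = 0 := by
    intro j hj hij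
    have e := congrArg (nc v j) h1
    rw [row_dia hX, map_smul, smul_eq_mul, ← hp] at e
    have hne : a j - a i ≠ 0 := by
      intro h
      exact hij (dia_inj hX hXw j hj i hi (sub_eq_zero.1 h))
    have : (a j - a i) * nc v j r = 0 := by linear_combination e
    exact (mul_eq_zero.1 this).resolve_left hne
  rcases Nat.lt_or_ge i d with hid | hid
  · have e := congrArg (nc v (i + 1)) h2
    rw [row_succ hY.1, map_smul, h0 (i + 1) (by omega) (by omega), smul_zero, mul_zero,
      add_zero] at e
    have h3 : dn v Y (i + 1) * nc v (i + 2) r = 0 := by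
      rcases Nat.lt_or_ge (i + 1) d with h | h
      · rw [h0 (i + 2) (by omega) (by omega), mul_zero]
      · rw [nc_gt v (by omega), LinearMap.zero_apply, mul_zero]
    rw [h3, add_zero] at e
    rcases mul_eq_zero.1 e with h | h
    · exact hY.2.1 i hid h
    · exact hc h
  · have hi' : i = d := by omega
    obtain ⟨k, rfl⟩ : ∃ k, d = k + 1 := ⟨d - 1, by omega⟩
    have e := congrArg (nc v k) h2
    rw [map_smul, h0 k (by omega) (by omega), smul_zero] at e
    have h3 : nc v k (Y r) = dn v Y k * nc v (k + 1) r := by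
      rcases k with _ | k
      · rw [row_zero hY.1, h0 0 (by omega) (by omega)]; ring
      · rw [row_succ hY.1, h0 k (by omega) (by omega), h0 (k + 1) (by omega) (by omega)]
        ring
    rw [h3] at e
    rcases mul_eq_zero.1 e with h | h
    · exact hY.2.2 k (by omega) h
    · rw [hi'] at hc; exact hc h

lemma exists_root [CharZero K] [IsAlgClosed K] {p : K} (hp : p ≠ 0) (q r : K) :
    ∃ t : K, p * t ^ 2 + q * t + r = 0 := by
  obtain ⟨s, hs⟩ := IsAlgClosed.exists_pow_nat_eq (q ^ 2 - 4 * p * r) (n := 2) (by norm_num)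
  refine ⟨(- q + s) / (2 * p), ?_⟩
  have h2 : (2 : K) ≠ 0 := two_ne_zero
  field_simp
  linear_combination hs

theorem case_lin [CharZero K] [IsAlgClosed K] {v w u : Basis (Fin (d + 1)) K V}
    {A B C : Module.End K V} {a b c : ℕ → K} (T : Triple d v w u A B C a b c) (hd : 1 ≤ d)
    {s : Basis (Fin (d + 1)) K V} {φ : ℕ → K}
    (hA : ∀ i, A (nv s i) = a i • nv s i + nv s (i + 1))
    (hB0 : B (nv s 0) = b 0 • nv s 0)
    (hB : ∀ i, B (nv s (i + 1)) = b (i + 1) • nv s (i + 1) + φ (i + 1) • nv s i)
    (hφne : ∀ i, 1 ≤ i → i ≤ d → φ i ≠ 0) {α0 α1 β0 β1 P : K}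
    (ha : ∀ i ≤ d, a i = α0 + α1 * ((d : K) - 2 * i))
    (hb : ∀ i ≤ d, b i = β0 + β1 * ((d : K) - 2 * i))
    (hφ : ∀ i ≤ d, φ i = - 4 * i * ((d : K) + 1 - i) * P) {c0 c1 c2 c3 : K}
    (hC : C = c0 • 1 + c1 • A + c2 • B + c3 • (A * B - B * A)) : EqForm A B C := by
  have hP : P ≠ 0 := by
    intro h
    apply hφne 1 le_rfl hd
    rw [hφ 1 hd, h, mul_zero]
  -- the two extreme coefficients
  have hk2 : c1 + 2 * β1 * c3 ≠ 0 := by
    intro h
    apply no_common (q := c0 + c1 * a 0 + c2 * b 0 - c3 * φ 1) hd T.Bw T.Bv T.Cw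
      (nv_ne_zero s (i := 0) (by omega)) hB0
    have e1 := hB 0
    have e2 := hA 0
    have e3 : b 0 - b 1 = 2 * β1 := by
      rw [hb 0 (by omega), hb 1 hd]; push_cast; ring
    simp only [zero_add] at e1 e2
    rw [hC]
    simp only [LinearMap.add_apply, LinearMap.sub_apply, LinearMap.smul_apply,
      Module.End.mul_apply, Module.End.one_apply, map_add, map_smul, e1, e2, hB0]
    linear_combination (norm := module) (h + c3 * e3) • nv s 1
  have hk3 : c2 + 2 * α1 * c3 ≠ 0 := by
    intro h
    obtain ⟨k, rfl⟩ : ∃ k, d = k + 1 := ⟨d - 1, by omega⟩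
    have e1 := hB k
    have e2 := hA k
    have e3 : A (nv s (k + 1)) = a (k + 1) • nv s (k + 1) := by
      rw [hA (k + 1), nv_gt s (i := k + 1 + 1) (by omega), add_zero]
    apply no_common (q := c0 + c1 * a (k + 1) + c2 * b (k + 1) + c3 * φ (k + 1)) hd T.Av T.Aw T.Cv
      (nv_ne_zero s (i := k + 1) (by omega)) e3
    have e4 : a k - a (k + 1) = 2 * α1 := by
      rw [ha k (by omega), ha (k + 1) le_rfl]; push_cast; ring
    rw [hC]
    simp only [LinearMap.add_apply, LinearMap.sub_apply, LinearMap.smul_apply,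
      Module.End.mul_apply, Module.End.one_apply, map_add, map_smul, e1, e2, e3]
    linear_combination (norm := module) (φ (k + 1) * (h + c3 * e4)) • nv s k
  set k1 : K := c1 * α1 + c2 * β1 + 4 * P * c3 with hk1
  set k2 : K := c1 + 2 * β1 * c3 with hk2'
  set k3 : K := P * (c2 + 2 * α1 * c3) with hk3'
  obtain ⟨t, ht⟩ := exists_root (mul_ne_zero hP hk3) k1 k2
  rw [← hk3'] at ht
  have ht0 : t ≠ 0 := by
    intro h
    apply hk2
    rw [h] at ht
    linear_combination ht
  obtain ⟨q, hq⟩ : ∃ q : K, q * t = 1 := ⟨t⁻¹, inv_mul_cancel₀ ht0⟩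
  apply eqForm_of s (fun _ => t) (fun i => - 4 * q * i * ((d : K) + 1 - i))
  · intro i hi
    push_cast
    linear_combination (- 4 * ((i : K) + 1) * ((d : K) - i)) * hq
  · intro y n m hy hn hm0 hm r1 r2 r3 r4
    have eA : A = α0 • 1 + α1 • y + q • n := by
      apply end_ext s
      intro i hi
      simp only [LinearMap.add_apply, LinearMap.smul_apply, Module.End.one_apply, hA i, hy i, hn i,
        ha i hi]
      linear_combination (norm := module) (- hq) • nv s (i + 1)
    have eB : B = β0 • 1 + β1 • y + (P * t) • m := by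
      apply end_ext s
      intro i hi
      rcases i with _ | i
      · simp only [LinearMap.add_apply, LinearMap.smul_apply, Module.End.one_apply, hB0, hy 0, hm0,
          hb 0 hi]
        module
      · simp only [LinearMap.add_apply, LinearMap.smul_apply, Module.End.one_apply, hB i,
          hy (i + 1), hm i (by omega), hb (i + 1) hi, hφ (i + 1) hi]
        push_cast
        linear_combination (norm := module) (4 * ((i : K) + 1) * ((d : K) + 1 - (i + 1)) * P * hq) •
          nv s i
    have eAB : A * B - B * A = (2 * α1 * P * t) • m + (2 * β1 * q) • n + (4 * P) • y := by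
      rw [eA, eB]
      simp only [add_mul, mul_add, smul_mul_assoc, mul_smul_comm, one_mul, mul_one]
      linear_combination (norm := module) (α1 * P * t) • r2 + (β1 * q) • r1 + P • r4 +
        (P * hq) • (n * m - m * n)
    refine ⟨n - y, m - y, rfl, rfl, ⟨α0, q, α1 + q, 0, ?_⟩, ⟨β0, β1 + P * t, P * t, 0, ?_⟩,
      ⟨c0 + c1 * α0 + c2 * β0, k3 * t, k2 * q, 0, ?_⟩⟩
    · rw [eA]
      module
    · rw [eB]
      module
    · rw [hC, eAB, eA, eB]
      have hkey : k1 + k2 * q + k3 * t = 0 := by
        linear_combination q * ht - (k3 * t + k1) * hq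
      rw [hk1, hk2', hk3'] at hkey
      rw [hk2', hk3']
      linear_combination (norm := module) hkey • y

end Pool.Agent.Helper8LeonardPos
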