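import Pool.Agent.Helper8_LeonardPos.CaseLin

set_option autoImplicit false

/-!
The case of quadratic eigenvalue sequences.
-/

namespace Pool.Agent.Helper8LeonardPos

open Module Pool.Agent.Helper8Leonard

universe u v

variable {K : Type u} [Field K] {V : Type v} [AddCommGroup V] [Module K V] {d : ℕ}

theorem case_quad [CharZero K] [IsAlgClosed K] {A B C : Module.End K V} {a b : ℕ → K}
    {s : Basis (Fin (d + 1)) K V} {φ : ℕ → K}
    (hA : ∀ i, A (nv s i) = a i • nv s i + nv s (i + 1))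
    (hB0 : B (nv s 0) = b 0 • nv s 0)
    (hB : ∀ i, B (nv s (i + 1)) = b (i + 1) • nv s (i + 1) + φ (i + 1) • nv s i)
    (hφne : ∀ i, 1 ≤ i → i ≤ d → φ i ≠ 0) {κ κ' α0 α1 β0 β1 P : K}
    (hκ : κ ≠ 0) (hκ' : κ' ≠ 0)
    (ha : ∀ i ≤ d, a i = α0 + α1 * ((d : K) - 2 * i) + κ * ((d : K) - 2 * i) ^ 2)
    (hb : ∀ i ≤ d, b i = β0 + β1 * ((d : K) - 2 * i) + κ' * ((d : K) - 2 * i) ^ 2)
    (hφ : ∀ i ≤ d + 1, φ i = - 4 * i * ((d : K) + 1 - i) *
      (P + (- 2 * κ * κ' + α1 * κ' + β1 * κ) * ((d : K) + 2 - 2 * i)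
        + κ * κ' * ((d : K) + 2 - 2 * i) ^ 2)) {c0 c1 c2 : K}
    (hC : C = c0 • 1 + c1 • A + c2 • B) (hc : c1 * κ = c2 * κ') : EqForm A B C := by
  set S : K := - 2 * κ * κ' + α1 * κ' + β1 * κ with hS
  obtain ⟨T, hT⟩ := exists_root (one_ne_zero (α := K)) (- S) (P * κ * κ')
  obtain ⟨a1, ha1⟩ : ∃ a1 : K, a1 * κ' = - T := ⟨_, div_mul_cancel₀ _ hκ'⟩
  obtain ⟨b2, hb2⟩ : ∃ b2 : K, b2 * κ = - (S - T) := ⟨_, div_mul_cancel₀ _ hκ⟩
  have hPab : a1 * b2 = P := by
    have h1 : (a1 * b2) * (κ * κ') = P * (κ * κ') := by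
      linear_combination (b2 * κ) * ha1 - T * hb2 - hT
    exact mul_right_cancel₀ (mul_ne_zero hκ hκ') h1
  have hSab : a1 * κ' + b2 * κ = - S := by linear_combination ha1 + hb2
  have hφ' : ∀ i < d, φ (i + 1) = - 4 * ((i : K) + 1) * ((d : K) - i) *
      ((a1 - κ * ((d : K) - 2 * i)) * (b2 - κ' * ((d : K) - 2 * i))) := by
    intro i hi
    rw [hφ (i + 1) (by omega)]
    push_cast
    linear_combination (4 * ((i : K) + 1) * ((d : K) - i)) * hPab -
      (4 * ((i : K) + 1) * ((d : K) - i)) * ((d : K) - 2 * i) * hSab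
  have hne : ∀ i < d, a1 - κ * ((d : K) - 2 * i) ≠ 0 := by
    intro i hi h
    apply hφne (i + 1) (by omega) (by omega)
    rw [hφ' i hi, h]
    ring
  apply eqForm_of s (fun i => (a1 - κ * ((d : K) - 2 * i))⁻¹)
    (fun i => - 4 * i * ((d : K) + 1 - i) * (a1 - κ * ((d : K) + 2 - 2 * i)))
  · intro i hi
    have h := hne i hi
    push_cast
    have e : (d : K) + 2 - 2 * ((i : K) + 1) = (d : K) - 2 * i := by ring
    rw [e]
    have e2 : (a1 - κ * ((d : K) - 2 * i))⁻¹ * (a1 - κ * ((d : K) - 2 * i)) = 1 :=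
      inv_mul_cancel₀ h
    linear_combination (- 4 * ((i : K) + 1) * ((d : K) - i)) * e2
  · intro y n m hy hn hm0 hm r1 r2 r3 r4
    set x : Module.End K V := n - y with hx
    set z : Module.End K V := m - y with hz
    have eA : A = α0 • 1 + a1 • x + (a1 + α1) • y + (- κ) • (x * y) := by
      apply end_ext s
      intro i hi
      simp only [LinearMap.add_apply, LinearMap.sub_apply, LinearMap.smul_apply, hx,
        Module.End.one_apply, Module.End.mul_apply, map_smul, hA i, hy i, hn i, ha i hi]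
      rcases Nat.lt_or_ge i d with hid | hid
      · have e2 : (a1 - κ * ((d : K) - 2 * i))⁻¹ * (a1 - κ * ((d : K) - 2 * i)) = 1 :=
          inv_mul_cancel₀ (hne i hid)
        linear_combination (norm := module) (- e2) • nv s (i + 1)
      · rw [nv_gt s (i := i + 1) (by omega)]
        module
    have eB : B = β0 • 1 + (b2 + β1) • y + b2 • z + (- κ') • (y * z) := by
      apply end_ext s
      intro i hi
      rcases i with _ | i
      · simp only [LinearMap.add_apply, LinearMap.sub_apply, LinearMap.smul_apply, hz,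
          Module.End.one_apply, Module.End.mul_apply, map_smul, map_sub, hB0, hy 0, hm0, map_zero,
          hb 0 hi]
        module
      · simp only [LinearMap.add_apply, LinearMap.sub_apply, LinearMap.smul_apply, hz,
          Module.End.one_apply, Module.End.mul_apply, map_smul, map_sub, hB i, hy (i + 1), hy i,
          hm i (by omega), hb (i + 1) hi, hφ' i (by omega)]
        push_cast
        module
    have hcas : x * y + y * z + z * x = (- ((d : K) * (d + 2))) • 1 + (2 : K) • (x + y + z) := by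
      rw [hx, hz]
      simp only [sub_mul, mul_sub]
      linear_combination (norm := module) r1 + r2 + r3
    have hkey : c1 * (a1 + α1) + c2 * (b2 + β1) - 2 * c1 * κ = 0 := by
      have h1 : κ * (c1 * (a1 + α1) + c2 * (b2 + β1) - 2 * c1 * κ) = 0 := by
        linear_combination (a1 + α1 - 2 * κ) * hc + c2 * hSab + c2 * hS
      exact (mul_eq_zero.1 h1).resolve_left hκ
    refine ⟨x, z, rfl, rfl, ⟨_, _, _, _, eA⟩, ⟨_, _, _, _, eB⟩,
      ⟨c0 + c1 * α0 + c2 * β0 + c1 * κ * ((d : K) * (d + 2)), c2 * b2 - 2 * c1 * κ,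
        c1 * a1 - 2 * c1 * κ, c1 * κ, ?_⟩⟩
    rw [hC, eA, eB]
    linear_combination (norm := module) hkey • y - (c1 * κ) • hcas + hc • (y * z)

end Pool.Agent.Helper8LeonardPos
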