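import Pool.Agent.Helper8_LeonardPos.Frame

set_option autoImplicit false

/-!
Construction of irreducible `sl₂`-modules with a given equitable triple of operators.
-/

namespace Pool.Agent.Helper8LeonardPos

open Module Pool.Agent.Helper8Leonard

attribute [local instance 100] LieRing.ofAssociativeRing

universe u v

variable {K : Type u} [Field K] {V : Type v} [AddCommGroup V] [Module K V] {d : ℕ}

lemma exists_end (s : Basis (Fin (d + 1)) K V) (g : ℕ → V) :
    ∃ X : Module.End K V, ∀ i ≤ d, X (nv s i) = g i := by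
  refine ⟨s.constr K (fun i => g i), ?_⟩
  intro i hi
  have : nv s i = s ⟨i, by omega⟩ := nv_fin s ⟨i, by omega⟩
  rw [this, Basis.constr_basis]

/-! ### The equitable basis of `sl₂` -/

/-- matrices of trace zero -/
def mk2 (p q r : K) : SL2 K :=
  ⟨!![p, q; r, -p], by
    rw [LieAlgebra.SpecialLinear.sl]
    simp [Matrix.trace, Fin.sum_univ_two]⟩

lemma mk2_lie (p q r p' q' r' : K) : ⁅mk2 p q r, mk2 p' q' r'⁆ =
    mk2 (q * r' - q' * r) (2 * (p * q' - p' * q)) (2 * (r * p' - r' * p)) := by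
  apply Subtype.ext
  rw [LieAlgebra.SpecialLinear.sl_bracket]
  simp only [mk2]
  ext i j
  fin_cases i <;> fin_cases j <;> simp <;> ring

lemma mk2_add (p q r p' q' r' : K) : mk2 p q r + mk2 p' q' r' = mk2 (p + p') (q + q') (r + r') := by
  apply Subtype.ext
  change !![p, q; r, -p] + !![p', q'; r', -p'] = !![p + p', q + q'; r + r', -(p + p')]
  ext i j
  fin_cases i <;> fin_cases j <;> simp
  ring

lemma mk2_smul (c p q r : K) : c • mk2 p q r = mk2 (c * p) (c * q) (c * r) := by
  apply Subtype.ext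
  change c • !![p, q; r, -p] = !![c * p, c * q; c * r, -(c * p)]
  ext i j
  fin_cases i <;> fin_cases j <;> simp

lemma eq_mk2 (M : SL2 K) : M = mk2 (M.1 0 0) (M.1 0 1) (M.1 1 0) := by
  apply Subtype.ext
  have h : M.1 0 0 + M.1 1 1 = 0 := by
    have h1 : Matrix.trace M.1 = 0 := M.2
    rwa [Matrix.trace, Fin.sum_univ_two] at h1
  change M.1 = !![M.1 0 0, M.1 0 1; M.1 1 0, -(M.1 0 0)]
  ext i j
  fin_cases i <;> fin_cases j <;> simp
  linear_combination h

/-- coordinates of the equitable basis -/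
noncomputable def eqv [CharZero K] : SL2 K ≃ₗ[K] (Fin 3 → K) where
  toFun M := ![M.1 1 0 / 2, M.1 0 0 + M.1 1 0 / 2 - M.1 0 1 / 2, - M.1 0 1 / 2]
  invFun c := c 0 • mk2 (-1) 0 2 + c 1 • mk2 1 0 0 + c 2 • mk2 (-1) (-2) 0
  map_add' M N := by
    ext i
    fin_cases i <;> simp <;> ring
  map_smul' c M := by
    ext i
    fin_cases i <;> simp <;> ring
  left_inv M := by
    conv_rhs => rw [eq_mk2 M]
    simp only [Matrix.cons_val_zero, Matrix.cons_val_one, Matrix.cons_val, mk2_smul, mk2_add]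
    congr 1 <;> ring
  right_inv c := by
    simp only [mk2_smul, mk2_add]
    ext i
    fin_cases i <;> simp [mk2] <;> ring

/-- the equitable basis -/
noncomputable def ebasis [CharZero K] : Basis (Fin 3) K (SL2 K) := Basis.ofEquivFun eqv

lemma eqv_symm_apply [CharZero K] (c : Fin 3 → K) : (eqv (K := K)).symm c =
    c 0 • mk2 (-1) 0 2 + c 1 • mk2 1 0 0 + c 2 • mk2 (-1) (-2) 0 := rfl

lemma ebasis_zero [CharZero K] : (ebasis (K := K)) 0 = mk2 (-1) 0 2 := by
  unfold ebasis
  rw [Basis.coe_ofEquivFun]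
  simp only
  rw [eqv_symm_apply]
  simp

lemma ebasis_one [CharZero K] : (ebasis (K := K)) 1 = mk2 1 0 0 := by
  unfold ebasis
  rw [Basis.coe_ofEquivFun]
  simp only
  rw [eqv_symm_apply]
  simp

lemma ebasis_two [CharZero K] : (ebasis (K := K)) 2 = mk2 (-1) (-2) 0 := by
  unfold ebasis
  rw [Basis.coe_ofEquivFun]
  simp only
  rw [eqv_symm_apply]
  simp

lemma ebasis_equitable [CharZero K] :
    IsEquitable (ebasis (K := K) 0) (ebasis (K := K) 1) (ebasis (K := K) 2) := by
  refine ⟨⟨ebasis, rfl, rfl, rfl⟩, ?_, ?_, ?_⟩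
  · rw [ebasis_zero, ebasis_one, mk2_lie, mk2_smul, mk2_smul, mk2_add]
    congr 1 <;> ring
  · rw [ebasis_one, ebasis_two, mk2_lie, mk2_smul, mk2_smul, mk2_add]
    congr 1 <;> ring
  · rw [ebasis_zero, ebasis_two, mk2_lie, mk2_smul, mk2_smul, mk2_add]
    congr 1 <;> ring

/-- Three operators satisfying the equitable relations come from an `sl₂`-module. -/
theorem exists_module [CharZero K] [Nontrivial V] (x y z : Module.End K V)
    (hxy : x * y - y * x = (2 : K) • x + (2 : K) • y)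
    (hyz : y * z - z * y = (2 : K) • y + (2 : K) • z)
    (hzx : z * x - x * z = (2 : K) • z + (2 : K) • x)
    (hirr : ∀ W : Submodule K V, (∀ t ∈ W, x t ∈ W) → (∀ t ∈ W, y t ∈ W) → (∀ t ∈ W, z t ∈ W) →
      W ≠ ⊥ → W = ⊤) :
    ∃ (_ : LieRingModule (SL2 K) V) (_ : LieModule K (SL2 K) V),
      LieModule.IsIrreducible K (SL2 K) V ∧
      ∃ X Y Z : SL2 K, IsEquitable X Y Z ∧ LieModule.toEnd K (SL2 K) V X = x ∧
        LieModule.toEnd K (SL2 K) V Y = y ∧ LieModule.toEnd K (SL2 K) V Z = z := by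
  set e : Basis (Fin 3) K (SL2 K) := ebasis with he
  obtain ⟨-, h1, h2, h3⟩ := ebasis_equitable (K := K)
  rw [← he] at h1 h2 h3
  set ρ : SL2 K →ₗ[K] Module.End K V := e.constr K ![x, y, z] with hρ
  have r0 : ρ (e 0) = x := by rw [hρ, Basis.constr_basis]; rfl
  have r1 : ρ (e 1) = y := by rw [hρ, Basis.constr_basis]; rfl
  have r2 : ρ (e 2) = z := by rw [hρ, Basis.constr_basis]; rfl
  have hlie : ∀ p q : SL2 K, ρ ⁅p, q⁆ = ρ p * ρ q - ρ q * ρ p := by
    intro p q
    obtain ⟨P, hP⟩ : ∃ P : Fin 3 → K, p = P 0 • e 0 + P 1 • e 1 + P 2 • e 2 :=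
      ⟨e.repr p, by conv_lhs => rw [← e.sum_repr p, Fin.sum_univ_three]⟩
    obtain ⟨Q, hQ⟩ : ∃ Q : Fin 3 → K, q = Q 0 • e 0 + Q 1 • e 1 + Q 2 • e 2 :=
      ⟨e.repr q, by conv_lhs => rw [← e.sum_repr q, Fin.sum_univ_three]⟩
    have h1' : ⁅e 1, e 0⁆ = - ((2 : K) • e 0 + (2 : K) • e 1) := by rw [← lie_skew, h1]
    have h2' : ⁅e 2, e 1⁆ = - ((2 : K) • e 1 + (2 : K) • e 2) := by rw [← lie_skew, h2]
    have h3' : ⁅e 0, e 2⁆ = - ((2 : K) • e 2 + (2 : K) • e 0) := by rw [← lie_skew, h3]
    rw [hP, hQ]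
    simp only [add_lie, lie_add, smul_lie, lie_smul, lie_self, h1, h2, h3, h1', h2', h3', map_add,
      map_smul, map_neg, map_zero, r0, r1, r2, smul_zero, mul_add, add_mul, smul_mul_assoc,
      mul_smul_comm]
    linear_combination (norm := module) (P 1 * Q 0 - P 0 * Q 1) • hxy +
      (P 2 * Q 1 - P 1 * Q 2) • hyz + (P 0 * Q 2 - P 2 * Q 0) • hzx
  let I1 : LieRingModule (SL2 K) V :=
    { bracket := fun p t => ρ p t
      add_lie := fun p q t => by
        change ρ (p + q) t = ρ p t + ρ q t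
        rw [map_add, LinearMap.add_apply]
      lie_add := fun p s t => by
        rw [map_add]
      leibniz_lie := fun p q t => by
        change ρ p (ρ q t) = ρ ⁅p, q⁆ t + ρ q (ρ p t)
        rw [hlie, LinearMap.sub_apply, Module.End.mul_apply, Module.End.mul_apply]
        abel }
  have hbr : ∀ (p : SL2 K) (t : V), ⁅p, t⁆ = ρ p t := fun p t => rfl
  let I2 : LieModule K (SL2 K) V :=
    { smul_lie := fun c p t => by
        rw [hbr, hbr, map_smul, LinearMap.smul_apply]
      lie_smul := fun c p t => by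
        rw [hbr, hbr, map_smul] }
  refine ⟨I1, I2, ?_, e 0, e 1, e 2, ebasis_equitable, ?_, ?_, ?_⟩
  · apply LieModule.IsIrreducible.mk
    intro N hN
    have : (N : Submodule K V) = ⊤ := by
      apply hirr
      · intro t ht
        have := N.lie_mem (x := e 0) ht
        rw [hbr, r0] at this
        exact this
      · intro t ht
        have := N.lie_mem (x := e 1) ht
        rw [hbr, r1] at this
        exact this
      · intro t ht
        have := N.lie_mem (x := e 2) ht
        rw [hbr, r2] at this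
        exact this
      · intro h
        apply hN
        rw [← LieSubmodule.toSubmodule_inj, h]
        rfl
    rw [← LieSubmodule.toSubmodule_inj, this]
    rfl
  · ext t
    rw [LieModule.toEnd_apply_apply, hbr, r0]
  · ext t
    rw [LieModule.toEnd_apply_apply, hbr, r1]
  · ext t
    rw [LieModule.toEnd_apply_apply, hbr, r2]

end Pool.Agent.Helper8LeonardPos
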