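import Pool.Agent.Helper8_Leonard.Defs

set_option autoImplicit false

/-!
Bases indexed by naturals and tridiagonal maps.
-/

namespace Pool.Agent.Helper8LeonardPos

open Module Pool.Agent.Helper8Leonard

universe u v

variable {K : Type u} [Field K] {V : Type v} [AddCommGroup V] [Module K V] {d : ℕ}

/-- Basis vectors indexed by naturals (zero beyond `d`). -/
noncomputable def nv (b : Basis (Fin (d + 1)) K V) (i : ℕ) : V :=
  if h : i < d + 1 then b ⟨i, h⟩ else 0

/-- Coordinates indexed by naturals (zero beyond `d`). -/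
noncomputable def nc (b : Basis (Fin (d + 1)) K V) (i : ℕ) : V →ₗ[K] K :=
  if h : i < d + 1 then b.coord ⟨i, h⟩ else 0

lemma nv_gt (b : Basis (Fin (d + 1)) K V) {i : ℕ} (h : d < i) : nv b i = 0 := by
  unfold nv; rw [dif_neg (by omega)]

lemma nc_gt (b : Basis (Fin (d + 1)) K V) {i : ℕ} (h : d < i) : nc b i = 0 := by
  unfold nc; rw [dif_neg (by omega)]

lemma nv_fin (b : Basis (Fin (d + 1)) K V) (i : Fin (d + 1)) : nv b i = b i := by
  unfold nv; rw [dif_pos i.2]

lemma nc_nv' (b : Basis (Fin (d + 1)) K V) (i j : ℕ) :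
    nc b j (nv b i) = if j = i ∧ i ≤ d then 1 else 0 := by
  unfold nc nv
  by_cases hi : i < d + 1
  · by_cases hj : j < d + 1
    · rw [dif_pos hi, dif_pos hj, Basis.coord_apply, Basis.repr_self, Finsupp.single_apply]
      simp only [Fin.mk.injEq]
      by_cases h : j = i
      · rw [if_pos h.symm, if_pos ⟨h, by omega⟩]
      · rw [if_neg (fun h' => h h'.symm), if_neg (fun h' => h h'.1)]
    · rw [dif_neg hj, if_neg (by omega)]; rfl
  · rw [dif_neg hi, map_zero, if_neg (by omega)]

lemma nc_nv (b : Basis (Fin (d + 1)) K V) {i : ℕ} (hi : i ≤ d) (j : ℕ) :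
    nc b j (nv b i) = if j = i then 1 else 0 := by
  rw [nc_nv']
  by_cases h : j = i
  · rw [if_pos ⟨h, hi⟩, if_pos h]
  · rw [if_neg (fun h' => h h'.1), if_neg h]

lemma nc_self (b : Basis (Fin (d + 1)) K V) {i : ℕ} (hi : i ≤ d) : nc b i (nv b i) = 1 := by
  rw [nc_nv b hi, if_pos rfl]

lemma nc_ne (b : Basis (Fin (d + 1)) K V) {i j : ℕ} (h : j ≠ i) : nc b j (nv b i) = 0 := by
  rw [nc_nv', if_neg (fun h' => h h'.1)]

lemma nv_ne_zero (b : Basis (Fin (d + 1)) K V) {i : ℕ} (hi : i ≤ d) : nv b i ≠ 0 := by
  intro h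
  have := nc_self b hi
  rw [h, map_zero] at this
  exact zero_ne_one this

lemma end_ext (b : Basis (Fin (d + 1)) K V) {X Y : Module.End K V}
    (h : ∀ i ≤ d, X (nv b i) = Y (nv b i)) : X = Y := by
  apply b.ext
  intro i
  rw [← nv_fin b i]
  exact h i (by omega)

lemma vec_ext (b : Basis (Fin (d + 1)) K V) {x y : V} (h : ∀ i ≤ d, nc b i x = nc b i y) :
    x = y := by
  apply b.ext_elem
  intro i
  have := h i (by omega)
  unfold nc at this
  rw [dif_pos i.2] at this
  simpa using this

lemma expand (b : Basis (Fin (d + 1)) K V) (x : V) :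
    x = ∑ i ∈ Finset.range (d + 1), nc b i x • nv b i := by
  apply vec_ext b
  intro j hj
  rw [map_sum]
  simp only [map_smul, smul_eq_mul]
  rw [Finset.sum_eq_single j]
  · rw [nc_self b hj, mul_one]
  · intro i _ hij
    rw [nc_ne b hij.symm, mul_zero]
  · intro h
    exact absurd (Finset.mem_range.2 (by omega)) h

/-- Diagonal action on a basis. -/
def Dia (b : Basis (Fin (d + 1)) K V) (X : Module.End K V) (a : ℕ → K) : Prop :=
  ∀ i, X (nv b i) = a i • nv b i

/-- Matrix entries indexed by naturals. -/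
noncomputable def ent (b : Basis (Fin (d + 1)) K V) (X : Module.End K V) (i j : ℕ) : K :=
  nc b i (X (nv b j))

/-- Entries below, above and on the diagonal. -/
noncomputable def up (b : Basis (Fin (d + 1)) K V) (X : Module.End K V) (i : ℕ) : K :=
  ent b X (i + 1) i
noncomputable def dn (b : Basis (Fin (d + 1)) K V) (X : Module.End K V) (i : ℕ) : K :=
  ent b X i (i + 1)
noncomputable def md (b : Basis (Fin (d + 1)) K V) (X : Module.End K V) (i : ℕ) : K :=
  ent b X i i

/-- Tridiagonal maps. -/
def IsTri (b : Basis (Fin (d + 1)) K V) (X : Module.End K V) : Prop :=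
  ∀ i j, (i + 1 < j ∨ j + 1 < i) → ent b X i j = 0

/-- Irreducible tridiagonal maps. -/
def Irr (b : Basis (Fin (d + 1)) K V) (X : Module.End K V) : Prop :=
  IsTri b X ∧ (∀ i < d, up b X i ≠ 0) ∧ (∀ i < d, dn b X i ≠ 0)

lemma ent_eq (b : Basis (Fin (d + 1)) K V) (X : Module.End K V) {i j : ℕ} (hi : i < d + 1)
    (hj : j < d + 1) : ent b X i j = LinearMap.toMatrix b b X ⟨i, hi⟩ ⟨j, hj⟩ := by
  unfold ent nc nv
  rw [dif_pos hi, dif_pos hj, LinearMap.toMatrix_apply, Basis.coord_apply]

lemma ent_gt (b : Basis (Fin (d + 1)) K V) (X : Module.End K V) {i j : ℕ} (h : d < i ∨ d < j) :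
    ent b X i j = 0 := by
  unfold ent
  rcases h with h | h
  · rw [nc_gt b h]; rfl
  · rw [nv_gt b h, map_zero, map_zero]

lemma dia_of_isDiag {b : Basis (Fin (d + 1)) K V} {X : Module.End K V}
    (h : (LinearMap.toMatrix b b X).IsDiag) : Dia b X (md b X) := by
  intro j
  rcases Nat.lt_or_ge d j with hj | hj
  · rw [nv_gt b hj, map_zero, smul_zero]
  apply vec_ext b
  intro i hi
  rw [map_smul, smul_eq_mul, nc_nv b hj]
  by_cases hij : i = j
  · subst hij; rw [if_pos rfl, mul_one]; rfl
  · rw [if_neg hij, mul_zero]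
    have := ent_eq b X (i := i) (j := j) (by omega) (by omega)
    rw [h (by simpa using hij)] at this
    exact this

lemma irr_of_irred {b : Basis (Fin (d + 1)) K V} {X : Module.End K V}
    (h : IsIrredTridiag (LinearMap.toMatrix b b X)) : Irr b X := by
  refine ⟨?_, ?_, ?_⟩
  · intro i j hij
    by_cases hi : i < d + 1
    · by_cases hj : j < d + 1
      · rw [ent_eq b X hi hj]
        exact h.1 _ _ (by simpa using hij)
      · exact ent_gt b X (Or.inr (by omega))
    · exact ent_gt b X (Or.inl (by omega))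
  · intro i hi
    unfold up
    rw [ent_eq b X (i := i + 1) (j := i) (by omega) (by omega)]
    exact h.2 _ _ (by simp)
  · intro i hi
    unfold dn
    rw [ent_eq b X (i := i) (j := i + 1) (by omega) (by omega)]
    exact h.2 _ _ (by simp)

section

variable {b : Basis (Fin (d + 1)) K V} {X : Module.End K V}

lemma col_zero (h : IsTri b X) : X (nv b 0) = md b X 0 • nv b 0 + up b X 0 • nv b 1 := by
  apply vec_ext b
  intro k hk
  simp only [map_add, map_smul, smul_eq_mul]
  change ent b X k 0 = _
  rcases k with _ | _ | k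
  · rw [nc_self b (by omega), nc_ne b (by omega)]; simp [md]
  · rw [nc_ne b (by omega), nc_self b (by omega)]; simp [up]
  · rw [nc_ne b (by omega), nc_ne b (by omega), h _ _ (by omega)]; simp

lemma col_succ (h : IsTri b X) (i : ℕ) : X (nv b (i + 1)) =
    dn b X i • nv b i + md b X (i + 1) • nv b (i + 1) + up b X (i + 1) • nv b (i + 2) := by
  apply vec_ext b
  intro k hk
  simp only [map_add, map_smul, smul_eq_mul]
  change ent b X k (i + 1) = _
  rcases Nat.lt_or_ge d (i + 1) with hi | hi
  · unfold dn md up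
    rw [ent_gt b X (Or.inr hi), ent_gt b X (Or.inr hi), ent_gt b X (Or.inr hi),
      ent_gt b X (Or.inr hi)]
    simp
  by_cases h1 : k = i
  · subst h1
    rw [nc_self b hk, nc_ne b (by omega), nc_ne b (by omega)]; simp [dn]
  by_cases h2 : k = i + 1
  · subst h2
    rw [nc_self b hk, nc_ne b (by omega), nc_ne b (by omega)]; simp [md]
  by_cases h3 : k = i + 2
  · subst h3
    rw [nc_self b hk, nc_ne b (by omega), nc_ne b (by omega)]; simp [up]
  rw [nc_ne b h1, nc_ne b h2, nc_ne b h3, h _ _ (by omega)]; simp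

lemma row_zero (h : IsTri b X) (x : V) : nc b 0 (X x) = md b X 0 * nc b 0 x + dn b X 0 * nc b 1 x := by
  have : nc b 0 ∘ₗ X = md b X 0 • nc b 0 + dn b X 0 • nc b 1 := by
    apply b.ext
    intro i
    rw [← nv_fin b i]
    simp only [LinearMap.comp_apply, LinearMap.add_apply, LinearMap.smul_apply, smul_eq_mul]
    change ent b X 0 i = _
    rcases hi : (i : ℕ) with _ | _ | k
    · rw [nc_self b (by omega), nc_ne b (by omega)]; simp [md]
    · rw [nc_ne b (by omega), nc_self b (by omega)]; simp [dn]
    · rw [nc_ne b (by omega), nc_ne b (by omega), h _ _ (by omega)]; simp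
  have := congrArg (fun T : V →ₗ[K] K => T x) this
  simpa using this

lemma row_succ (h : IsTri b X) (i : ℕ) (x : V) : nc b (i + 1) (X x) =
    up b X i * nc b i x + md b X (i + 1) * nc b (i + 1) x + dn b X (i + 1) * nc b (i + 2) x := by
  have : nc b (i + 1) ∘ₗ X = up b X i • nc b i + md b X (i + 1) • nc b (i + 1) +
      dn b X (i + 1) • nc b (i + 2) := by
    apply b.ext
    intro k
    rw [← nv_fin b k]
    simp only [LinearMap.comp_apply, LinearMap.add_apply, LinearMap.smul_apply, smul_eq_mul]
    change ent b X (i + 1) k = _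
    have hk : (k : ℕ) ≤ d := by omega
    generalize (k : ℕ) = k at hk
    by_cases h1 : k = i
    · subst h1
      rw [nc_self b hk, nc_ne b (by omega), nc_ne b (by omega)]; simp [up]
    by_cases h2 : k = i + 1
    · subst h2
      rw [nc_self b hk, nc_ne b (by omega), nc_ne b (by omega)]; simp [md]
    by_cases h3 : k = i + 2
    · subst h3
      rw [nc_self b hk, nc_ne b (by omega), nc_ne b (by omega)]; simp [dn]
    rw [nc_ne b (fun h => h1 h.symm), nc_ne b (fun h => h2 h.symm), nc_ne b (fun h => h3 h.symm),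
      h _ _ (by omega)]
    simp
  have := congrArg (fun T : V →ₗ[K] K => T x) this
  simpa using this

end

/-- The reversed basis. -/
noncomputable def rv (b : Basis (Fin (d + 1)) K V) : Basis (Fin (d + 1)) K V :=
  b.reindex Fin.revPerm

lemma nv_rv (b : Basis (Fin (d + 1)) K V) {i : ℕ} (hi : i ≤ d) : nv (rv b) i = nv b (d - i) := by
  unfold nv rv
  rw [dif_pos (by omega), dif_pos (by omega), Basis.reindex_apply]
  congr 1
  apply Fin.ext
  simp [Fin.revPerm]

lemma nc_rv (b : Basis (Fin (d + 1)) K V) {i : ℕ} (hi : i ≤ d) : nc (rv b) i = nc b (d - i) := by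
  apply b.ext
  intro k
  have e : b k = nv (rv b) (d - k) := by
    rw [nv_rv b (by omega), ← nv_fin b k]
    congr 1
    omega
  rw [e, nc_nv (rv b) (by omega), nv_rv b (by omega), nc_nv b (by omega)]
  by_cases h : i = d - k
  · rw [if_pos h, if_pos (by omega)]
  · rw [if_neg h, if_neg (by omega)]

lemma ent_rv (b : Basis (Fin (d + 1)) K V) (X : Module.End K V) {i j : ℕ} (hi : i ≤ d)
    (hj : j ≤ d) : ent (rv b) X i j = ent b X (d - i) (d - j) := by
  unfold ent
  rw [nc_rv b hi, nv_rv b hj]

lemma up_rv (b : Basis (Fin (d + 1)) K V) (X : Module.End K V) {i : ℕ} (hi : i < d) :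
    up (rv b) X i = dn b X (d - 1 - i) := by
  unfold up dn
  rw [ent_rv b X (by omega) (by omega)]
  congr 1 <;> omega

lemma dn_rv (b : Basis (Fin (d + 1)) K V) (X : Module.End K V) {i : ℕ} (hi : i < d) :
    dn (rv b) X i = up b X (d - 1 - i) := by
  unfold up dn
  rw [ent_rv b X (by omega) (by omega)]
  congr 1 <;> omega

lemma isTri_rv {b : Basis (Fin (d + 1)) K V} {X : Module.End K V} (h : IsTri b X) :
    IsTri (rv b) X := by
  intro i j hij
  rcases Nat.lt_or_ge d i with hi | hi
  · exact ent_gt _ X (Or.inl hi)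
  rcases Nat.lt_or_ge d j with hj | hj
  · exact ent_gt _ X (Or.inr hj)
  rw [ent_rv b X hi hj]
  exact h _ _ (by omega)

lemma irr_rv {b : Basis (Fin (d + 1)) K V} {X : Module.End K V} (h : Irr b X) :
    Irr (rv b) X := by
  refine ⟨isTri_rv h.1, ?_, ?_⟩
  · intro i hi
    rw [up_rv b X hi]
    exact h.2.2 _ (by omega)
  · intro i hi
    rw [dn_rv b X hi]
    exact h.2.1 _ (by omega)

lemma dia_rv {b : Basis (Fin (d + 1)) K V} {X : Module.End K V} {a : ℕ → K}
    (h : Dia b X a) : Dia (rv b) X (fun i => a (d - i)) := by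
  intro i
  rcases Nat.lt_or_ge d i with hi | hi
  · rw [nv_gt _ hi, map_zero, smul_zero]
  rw [nv_rv b hi]
  exact h _

lemma isTri_of_dia {b : Basis (Fin (d + 1)) K V} {X : Module.End K V} {a : ℕ → K}
    (h : Dia b X a) : IsTri b X := by
  intro i j hij
  unfold ent
  rw [h j, map_smul, nc_ne b (by omega), smul_zero]

lemma IsTri.add {b : Basis (Fin (d + 1)) K V} {X Y : Module.End K V} (h : IsTri b X)
    (h' : IsTri b Y) : IsTri b (X + Y) := by
  intro i j hij
  have h1 := h i j hij
  have h2 := h' i j hij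
  unfold ent at *
  rw [LinearMap.add_apply, map_add, h1, h2, add_zero]

lemma IsTri.smul {b : Basis (Fin (d + 1)) K V} {X : Module.End K V} (h : IsTri b X) (c : K) :
    IsTri b (c • X) := by
  intro i j hij
  have h1 := h i j hij
  unfold ent at *
  rw [LinearMap.smul_apply, map_smul, h1, smul_zero]

lemma IsTri.sub {b : Basis (Fin (d + 1)) K V} {X Y : Module.End K V} (h : IsTri b X)
    (h' : IsTri b Y) : IsTri b (X - Y) := by
  intro i j hij
  have h1 := h i j hij
  have h2 := h' i j hij
  unfold ent at *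
  rw [LinearMap.sub_apply, map_sub, h1, h2, sub_zero]

lemma IsTri.mul_dia {b : Basis (Fin (d + 1)) K V} {X Y : Module.End K V} {a : ℕ → K}
    (h : IsTri b X) (h' : Dia b Y a) : IsTri b (X * Y) := by
  intro i j hij
  have h1 := h i j hij
  unfold ent at *
  rw [Module.End.mul_apply, h' j, map_smul, map_smul, h1, smul_zero]

lemma IsTri.dia_mul {b : Basis (Fin (d + 1)) K V} {X Y : Module.End K V} {a : ℕ → K}
    (h : IsTri b X) (h' : Dia b Y a) : IsTri b (Y * X) := by
  intro i j hij
  have h1 := h i j hij
  have hY : ∀ x, nc b i (Y x) = a i * nc b i x := by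
    intro x
    have : nc b i ∘ₗ Y = a i • nc b i := by
      apply b.ext
      intro k
      rw [← nv_fin b k]
      simp only [LinearMap.comp_apply, LinearMap.smul_apply, smul_eq_mul]
      rw [h' k, map_smul, smul_eq_mul]
      by_cases hk : i = k
      · rw [← hk]
      · rw [nc_ne b hk]; ring
    have := congrArg (fun T : V →ₗ[K] K => T x) this
    simpa using this
  unfold ent at *
  rw [Module.End.mul_apply, hY, h1, mul_zero]

/-- If `Y` commutes with `X`, `X` is irreducible tridiagonal and `Y` kills the first basis vector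
then `Y = 0`. -/
lemma eq_zero_of_comm {b : Basis (Fin (d + 1)) K V} {X Y : Module.End K V}
    (h : Irr b X) (hc : X * Y = Y * X) (h0 : Y (nv b 0) = 0) : Y = 0 := by
  apply end_ext b
  have hc' : ∀ x, Y (X x) = X (Y x) := fun x => by
    have := congrArg (fun T : Module.End K V => T x) hc
    simpa using this.symm
  have key : ∀ n, n ≤ d → Y (nv b n) = 0 := by
    intro n
    induction n using Nat.strong_induction_on with
    | _ n ih =>
      intro hn
      rcases n with _ | _ | n
      · exact h0
      · have e := congrArg Y (col_zero h.1)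
        rw [hc', h0, map_zero, map_add, map_smul, map_smul, h0, smul_zero, zero_add] at e
        exact (smul_eq_zero.1 e.symm).resolve_left (h.2.1 0 (by omega))
      · have e := congrArg Y (col_succ h.1 n)
        have h1 := ih n (by omega) (by omega)
        have h2 := ih (n + 1) (by omega) (by omega)
        rw [hc', h2, map_zero, map_add, map_add, map_smul, map_smul, map_smul, h1, h2, smul_zero,
          smul_zero, zero_add, zero_add] at e
        exact (smul_eq_zero.1 e.symm).resolve_left (h.2.1 (n + 1) (by omega))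
  intro i hi
  rw [LinearMap.zero_apply]
  exact key i hi

/-- A map diagonal in a basis commutes with a map diagonal in the same basis. -/
lemma comm_of_dia {b : Basis (Fin (d + 1)) K V} {X Y : Module.End K V} {a c : ℕ → K}
    (h1 : Dia b X a) (h2 : Dia b Y c) : X * Y = Y * X := by
  apply end_ext b
  intro i _
  simp only [Module.End.mul_apply, h1 i, h2 i, map_smul]
  rw [smul_comm]

/-- All coordinates of the first basis vector are nonzero. -/
lemma coord_ne_zero {v w : Basis (Fin (d + 1)) K V} {A : Module.End K V} {a : ℕ → K}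
    (hv : Dia v A a) (h : Irr w A) : ∀ i ≤ d, nc v i (nv w 0) ≠ 0 := by
  intro i hi hs
  let P : Module.End K V := (nc v i).smulRight (nv v i)
  have hPc : A * P = P * A := by
    apply end_ext v
    intro k hk
    change A (nc v i (nv v k) • nv v i) = nc v i (A (nv v k)) • nv v i
    rw [hv k, map_smul, map_smul, hv i, nc_nv v hk]
    by_cases h1 : i = k
    · subst h1; simp
    · rw [if_neg h1]; simp
  have hP0 : P (nv w 0) = 0 := by
    change nc v i (nv w 0) • nv v i = 0
    rw [hs, zero_smul]
  have hPz : P = 0 := eq_zero_of_comm h hPc hP0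
  have : P (nv v i) = nv v i := by
    change nc v i (nv v i) • nv v i = _
    rw [nc_self v hi, one_smul]
  rw [hPz, LinearMap.zero_apply] at this
  exact nv_ne_zero v hi this.symm

/-- Distinctness of eigenvalues. -/
lemma dia_inj {v w : Basis (Fin (d + 1)) K V} {A : Module.End K V} {a : ℕ → K}
    (hv : Dia v A a) (h : Irr w A) : ∀ i ≤ d, ∀ j ≤ d, a i = a j → i = j := by
  intro i hi j hj hij
  by_contra hne
  set s := nc v i (nv w 0) with hs
  set t := nc v j (nv w 0) with ht
  let T : Module.End K V := ((t • nc v i - s • nc v j : V →ₗ[K] K)).smulRight (nv v i)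
  have hT : ∀ x, T x = (t * nc v i x - s * nc v j x) • nv v i := fun x => rfl
  have hTc : A * T = T * A := by
    apply end_ext v
    intro k hk
    simp only [Module.End.mul_apply, hT, map_smul, hv i, hv k, smul_eq_mul, smul_smul]
    congr 1
    rw [nc_nv v hk, nc_nv v hk]
    by_cases h1 : i = k
    · subst h1
      rw [if_pos rfl, if_neg (fun h => hne h.symm)]
      ring
    · by_cases h2 : j = k
      · subst h2
        rw [if_neg h1, if_pos rfl, hij]
        ring
      · rw [if_neg h1, if_neg h2]; ring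
  have hT0 : T (nv w 0) = 0 := by
    rw [hT, ← hs, ← ht]
    rw [show t * s - s * t = 0 by ring, zero_smul]
  have hTz : T = 0 := eq_zero_of_comm h hTc hT0
  have e1 : T (nv v i) = t • nv v i := by
    rw [hT, nc_self v hi, nc_ne v (fun h => hne h.symm)]; simp
  rw [hTz, LinearMap.zero_apply] at e1
  exact coord_ne_zero hv h j hj ((smul_eq_zero.1 e1.symm).resolve_right (nv_ne_zero v hi))

end Pool.Agent.Helper8LeonardPos
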