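import Pool.Agent.Helper8_LeonardPos.CaseQuad

set_option autoImplicit false

/-!
Leonard triples of diameter different from two have the equitable form.
-/

namespace Pool.Agent.Helper8LeonardPos

open Module Pool.Agent.Helper8Leonard

universe u v

variable {K : Type u} [Field K] {V : Type v} [AddCommGroup V] [Module K V] {d : ℕ}

theorem triple_of {A B C : Module.End K V} (h : IsLeonardTriple d A B C) :
    ∃ (v w u : Basis (Fin (d + 1)) K V) (b c : ℕ → K),
      Triple d v w u A B C (md v A) b c ∧ (LinearMap.toMatrix v v A).IsDiag ∧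
      IsIrredTridiag (LinearMap.toMatrix v v B) := by
  obtain ⟨⟨v, h1, h2, h3⟩, ⟨w, h4, h5, h6⟩, ⟨u, h7, h8, h9⟩⟩ := h
  exact ⟨v, w, u, md w B, md u C, ⟨dia_of_isDiag h1, irr_of_irred h2, irr_of_irred h3,
    dia_of_isDiag h4, irr_of_irred h5, irr_of_irred h6, dia_of_isDiag h7, irr_of_irred h8,
    irr_of_irred h9⟩, h1, h2⟩

/-- Diameter at least three. -/
theorem pos_three [CharZero K] [IsAlgClosed K] (hd : 3 ≤ d) {A B C : Module.End K V}
    (hβ : BetaEqTwo d A B) (hT : IsLeonardTriple d A B C) : EqForm A B C := by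
  obtain ⟨v, w, u, b, c, T, hv1, hv2⟩ := triple_of hT
  set a := md v A with ha
  have h8 : (8 : K) ≠ 0 := by norm_num
  obtain ⟨κ, hκ⟩ : ∃ κ : K, 8 * κ = a 0 - 2 * a 1 + a 2 := ⟨_, mul_div_cancel₀ _ h8⟩
  have hγ : ∀ i, i + 2 ≤ d → a i - 2 * a (i + 1) + a (i + 2) = 8 * κ := by
    intro i
    induction i with
    | zero => intro _; rw [hκ]
    | succ i ih =>
      intro hi
      rw [← ih (by omega)]
      have e := hβ v hv1 hv2 (i + 2) (by omega) (by omega)
      rw [← ent_eq v A (by omega) (by omega), ← ent_eq v A (by omega) (by omega),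
        ← ent_eq v A (by omega) (by omega), ← ent_eq v A (by omega) (by omega)] at e
      have e1 : ent v A (i + 2 - 2) (i + 2 - 2) = a i := rfl
      have e2 : ent v A (i + 2 + 1) (i + 2 + 1) = a (i + 3) := rfl
      have e3 : ent v A (i + 2 - 1) (i + 2 - 1) = a (i + 1) := rfl
      have e4 : ent v A (i + 2) (i + 2) = a (i + 2) := rfl
      rw [e1, e2, e3, e4] at e
      linear_combination - e
  obtain ⟨γ', γ'', hγ', c0, c1, c2, c3, hC, hcase⟩ := classify T hd hγ
  obtain ⟨κ', hκ'⟩ : ∃ κ' : K, 8 * κ' = γ' := ⟨_, mul_div_cancel₀ _ h8⟩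
  rw [← hκ'] at hγ' hcase
  obtain ⟨s, φ, sA, sB0, sB, hφ0, hφd, hφne, -⟩ := exists_split T.Av T.Bv T.Bw T.Aw
  obtain ⟨α0, α1, ha'⟩ := quad_form a κ hγ
  obtain ⟨β0, β1, hb'⟩ := quad_form b κ' hγ'
  obtain ⟨g1, g0, hAW⟩ := aw (by omega) T.Av (quad_of a _ hγ) T.Bv.1 T.Aw T.Bw
  rw [hγ' 0 (by omega)] at hAW
  obtain ⟨P, hφ⟩ := phi_form ha' hb' hφ0 hφd (phi_second sA sB0 sB hφ0 hAW)
  rcases hcase with ⟨h1, h2, h3, h4, h5, h6⟩ | ⟨h1, h2⟩
  · have k1 : κ ≠ 0 := right_ne_zero_of_mul h1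
    have k2 : κ' ≠ 0 := right_ne_zero_of_mul h2
    apply case_quad sA sB0 sB hφne k1 k2 ha' hb' hφ (c0 := c0) (c1 := c1) (c2 := c2)
    · rw [hC, h3, zero_smul, add_zero]
    · have : (8 : K) * (c1 * κ) = 8 * (c2 * κ') := by linear_combination h4 - h5
      exact mul_left_cancel₀ h8 this
  · have k1 : κ = 0 := (mul_eq_zero.1 h1).resolve_left h8
    have k2 : κ' = 0 := (mul_eq_zero.1 h2).resolve_left h8
    rw [k1] at ha' hφ
    rw [k2] at hb' hφ
    apply case_lin T (by omega) sA sB0 sB hφne (α0 := α0) (α1 := α1) (β0 := β0) (β1 := β1)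
      (P := P) ?_ ?_ ?_ hC
    · intro i hi
      rw [ha' i hi]; ring
    · intro i hi
      rw [hb' i hi]; ring
    · intro i hi
      rw [hφ i (by omega)]; ring

/-- Diameter one. -/
theorem pos_one [CharZero K] [IsAlgClosed K] {A B C : Module.End K V}
    (hT : IsLeonardTriple 1 A B C) : EqForm A B C := by
  obtain ⟨v, w, u, b, c, T, -, -⟩ := triple_of hT
  set a := md v A with ha
  obtain ⟨s, φ, sA, sB0, sB, hφ0, hφd, hφne, -⟩ := exists_split T.Av T.Bv T.Bw T.Aw
  obtain ⟨α0, α1, ha'⟩ := quad_form (d := 1) a 0 (fun i hi => by omega)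
  obtain ⟨β0, β1, hb'⟩ := quad_form (d := 1) b 0 (fun i hi => by omega)
  have h2 : (2 : K) ≠ 0 := two_ne_zero
  have h4 : (4 : K) ≠ 0 := by norm_num
  have hD0 : b 1 - b 0 ≠ 0 := by
    intro h
    have := dia_inj T.Bw T.Bv 1 (by omega) 0 (by omega) (sub_eq_zero.1 h)
    omega
  have hu := T.Aw.2.1 0 (by omega)
  have hn := T.Aw.2.2 0 (by omega)
  obtain ⟨r, hr⟩ : ∃ r : K, r * up w A 0 = up w C 0 := ⟨_, div_mul_cancel₀ _ hu⟩
  obtain ⟨t, ht⟩ : ∃ t : K, t * dn w A 0 = dn w C 0 := ⟨_, div_mul_cancel₀ _ hn⟩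
  obtain ⟨c0, c2, hC⟩ := comb_of (by omega) T.Av T.Bv T.Cv.1 T.Bw T.Aw T.Cw.1 ((r + t) / 2)
    ((t - r) / (2 * (b 1 - b 0))) (by
      intro i hi
      obtain rfl : i = 0 := by omega
      rw [← hr]
      congr 1
      field_simp
      ring) (by
      intro i hi
      obtain rfl : i = 0 := by omega
      rw [← ht]
      congr 1
      field_simp
      ring)
  apply case_lin T (by omega) sA sB0 sB hφne (α0 := α0) (α1 := α1) (β0 := β0) (β1 := β1)
    (P := - φ 1 / 4) ?_ ?_ ?_ hC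
  · intro i hi
    rw [ha' i hi]; ring
  · intro i hi
    rw [hb' i hi]; ring
  · intro i hi
    have : i = 0 ∨ i = 1 := by omega
    rcases this with rfl | rfl
    · rw [hφ0]; push_cast; ring
    · push_cast; field_simp; ring

/-- Diameter zero. -/
theorem pos_zero [CharZero K] [IsAlgClosed K] {A B C : Module.End K V}
    (hT : IsLeonardTriple 0 A B C) : EqForm A B C := by
  obtain ⟨v, w, u, b, c, T, -, -⟩ := triple_of hT
  have key : ∀ X : Module.End K V, X = md v X 0 • 1 := by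
    intro X
    apply end_ext v
    intro i hi
    obtain rfl : i = 0 := by omega
    apply vec_ext v
    intro j hj
    obtain rfl : j = 0 := by omega
    rw [LinearMap.smul_apply, Module.End.one_apply, map_smul, nc_self v le_rfl, smul_eq_mul,
      mul_one]
    rfl
  apply eqForm_of v (fun _ => 0) (fun _ => 0)
  · intro i hi
    omega
  · intro y n m _ _ _ _ _ _ _ _
    refine ⟨n - y, m - y, rfl, rfl, ⟨md v A 0, 0, 0, 0, ?_⟩, ⟨md v B 0, 0, 0, 0, ?_⟩,
      ⟨md v C 0, 0, 0, 0, ?_⟩⟩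
    · simp only [zero_smul, add_zero]; exact key A
    · simp only [zero_smul, add_zero]; exact key B
    · simp only [zero_smul, add_zero]; exact key C

/-- All diameters except two. -/
theorem pos [CharZero K] [IsAlgClosed K] (hd : d ≠ 2) {A B C : Module.End K V}
    (hβ : BetaEqTwo d A B) (hT : IsLeonardTriple d A B C) : EqForm A B C := by
  rcases Nat.lt_or_ge d 3 with h | h
  · have : d = 0 ∨ d = 1 := by omega
    rcases this with rfl | rfl
    · exact pos_zero hT
    · exact pos_one hT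
  · exact pos_three h hβ hT

end Pool.Agent.Helper8LeonardPos
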