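import Pool.Agent.Helper8_LeonardPos.AW

set_option autoImplicit false

/-!
Comparison of the off-diagonal entries of two members of a Leonard triple in an eigenbasis of the
third one.
-/

namespace Pool.Agent.Helper8LeonardPos

open Module Pool.Agent.Helper8Leonard

universe u v

variable {K : Type u} [Field K] {V : Type v} [AddCommGroup V] [Module K V] {d : ℕ}

/-- `x` has no coordinates beyond `n`. -/
def Supp (b : Basis (Fin (d + 1)) K V) (n : ℕ) (x : V) : Prop := ∀ k, n < k → nc b k x = 0

lemma supp_nv (b : Basis (Fin (d + 1)) K V) (n : ℕ) : Supp b n (nv b n) :=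
  fun _ hk => nc_ne b (by omega)

lemma Supp.mono {b : Basis (Fin (d + 1)) K V} {n m : ℕ} {x : V} (h : Supp b n x) (hnm : n ≤ m) :
    Supp b m x := fun k hk => h k (by omega)

lemma Supp.map {b : Basis (Fin (d + 1)) K V} {X : Module.End K V} (hX : IsTri b X) {n : ℕ} {x : V}
    (h : Supp b n x) : Supp b (n + 1) (X x) := by
  intro k hk
  obtain ⟨k, rfl⟩ : ∃ j, k = j + 1 := ⟨k - 1, by omega⟩
  rw [row_succ hX, h k (by omega), h (k + 1) (by omega), h (k + 2) (by omega)]
  ring

lemma Supp.top {b : Basis (Fin (d + 1)) K V} {X : Module.End K V} (hX : IsTri b X) {n : ℕ} {x : V}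
    (h : Supp b n x) : nc b (n + 1) (X x) = up b X n * nc b n x := by
  rw [row_succ hX, h (n + 1) (by omega), h (n + 2) (by omega)]
  ring

lemma row_dia {b : Basis (Fin (d + 1)) K V} {X : Module.End K V} {a : ℕ → K} (h : Dia b X a)
    (k : ℕ) (x : V) : nc b k (X x) = a k * nc b k x := by
  have : nc b k ∘ₗ X = a k • nc b k := by
    apply b.ext
    intro i
    rw [← nv_fin b i]
    simp only [LinearMap.comp_apply, LinearMap.smul_apply, smul_eq_mul]
    rw [h i, map_smul, smul_eq_mul]
    by_cases hk : k = i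
    · rw [← hk]
    · rw [nc_ne b hk]; ring
  have := congrArg (fun T : V →ₗ[K] K => T x) this
  simpa using this

/-- the second difference of the spectrum of `X` -/
lemma second_diff {w : Basis (Fin (d + 1)) K V} {A X : Module.End K V} {x : ℕ → K}
    {γ ρ g2 g1 g0 : K} (hA : Irr w A) (hX : Dia w X x)
    (h : FF A γ ρ X = g2 • (A * A) + g1 • A + g0 • 1) :
    ∀ i, i + 2 ≤ d → x i - 2 * x (i + 1) + x (i + 2) = g2 := by
  intro i hi
  have hp0 := hA.2.1 i (by omega)
  have hp1 := hA.2.1 (i + 1) (by omega)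
  have s0 := supp_nv w i
  have s1 : Supp w (i + 1) (A (nv w i)) := s0.map hA.1
  have t1 : nc w (i + 1) (A (nv w i)) = up w A i := by
    rw [s0.top hA.1, nc_self w (by omega), mul_one]
  have t2 : nc w (i + 2) (A (A (nv w i))) = up w A (i + 1) * up w A i := by
    rw [s1.top hA.1, t1]
  have sX : Supp w (i + 1) (X (A (nv w i))) := by
    intro k hk
    rw [row_dia hX, s1 k hk, mul_zero]
  have t3 : nc w (i + 2) (A (X (A (nv w i)))) = up w A (i + 1) * (x (i + 1) * up w A i) := by
    rw [sX.top hA.1, row_dia hX, t1]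
  have e := congrArg (fun T : Module.End K V => nc w (i + 2) (T (nv w i))) h
  simp only [FF, LinearMap.add_apply, LinearMap.sub_apply, LinearMap.smul_apply,
    Module.End.mul_apply, Module.End.one_apply, map_add, map_sub, map_smul, smul_eq_mul,
    hX i, row_dia hX, t2, t3, s1 (i + 2) (by omega), s0 (i + 2) (by omega)] at e
  apply mul_left_cancel₀ (mul_ne_zero hp1 hp0)
  linear_combination e

/-- the coefficient three steps above the diagonal -/
lemma third {w : Basis (Fin (d + 1)) K V} {A C : Module.End K V}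
    {γ ρ g2 g1 g0 : K} (hA : IsTri w A) (hC : IsTri w C)
    (h : FF A γ ρ C = g2 • (A * A) + g1 • A + g0 • 1) {i : ℕ} (hi : i ≤ d) :
    up w A (i + 2) * up w A (i + 1) * up w C i - 2 * (up w A (i + 2) * up w C (i + 1) * up w A i)
      + up w C (i + 2) * up w A (i + 1) * up w A i = 0 := by
  have s0 := supp_nv w i
  have sA : Supp w (i + 1) (A (nv w i)) := s0.map hA
  have sC : Supp w (i + 1) (C (nv w i)) := s0.map hC
  have tA : nc w (i + 1) (A (nv w i)) = up w A i := by
    rw [s0.top hA, nc_self w hi, mul_one]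
  have tC : nc w (i + 1) (C (nv w i)) = up w C i := by
    rw [s0.top hC, nc_self w hi, mul_one]
  have sAA : Supp w (i + 2) (A (A (nv w i))) := sA.map hA
  have sAC : Supp w (i + 2) (A (C (nv w i))) := sC.map hA
  have sCA : Supp w (i + 2) (C (A (nv w i))) := sA.map hC
  have e := congrArg (fun T : Module.End K V => nc w (i + 3) (T (nv w i))) h
  simp only [FF, LinearMap.add_apply, LinearMap.sub_apply, LinearMap.smul_apply,
    Module.End.mul_apply, Module.End.one_apply, map_add, map_sub, map_smul, smul_eq_mul,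
    sAC.top hA, sCA.top hA, sAA.top hC, sC.top hA, sA.top hA, sA.top hC, tA, tC,
    sAA (i + 3) (by omega), sAC (i + 3) (by omega), sCA (i + 3) (by omega),
    sA (i + 3) (by omega), sC (i + 3) (by omega), s0 (i + 3) (by omega)] at e
  linear_combination e

theorem ratio [CharZero K] {w : Basis (Fin (d + 1)) K V} {A C : Module.End K V}
    {γ ρ γ' ρ' g1 g0 g1' g0' : K} (hd : 3 ≤ d) (hA : Irr w A) (hC : Irr w C)
    (h1 : FF A γ ρ C = γ' • (A * A) + g1 • A + g0 • 1)
    (h2 : FF C γ' ρ' A = γ • (C * C) + g1' • C + g0' • 1) :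
    ∃ r : K, r ≠ 0 ∧ (∀ i < d, up w C i = r * up w A i) ∧ γ' = - r * γ := by
  have hne : ∀ i < d, up w A i ≠ 0 := hA.2.1
  have hne' : ∀ i < d, up w C i ≠ 0 := hC.2.1
  set r : ℕ → K := fun i => up w C i / up w A i with hr
  have hr' : ∀ i < d, up w C i = r i * up w A i := fun i hi => by
    rw [hr]; simp only; rw [div_mul_cancel₀ _ (hne i hi)]
  have hr0 : ∀ i < d, r i ≠ 0 := fun i hi => div_ne_zero (hne' i hi) (hne i hi)
  have step : ∀ i, i + 3 ≤ d → r (i + 1) = r i ∧ r (i + 2) = r i := by
    intro i hi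
    have e1 := third hA.1 hC.1 h1 (i := i) (by omega)
    have e2 := third hC.1 hA.1 h2 (i := i) (by omega)
    rw [hr' i (by omega), hr' (i + 1) (by omega), hr' (i + 2) (by omega)] at e1 e2
    have hprod : up w A (i + 2) * up w A (i + 1) * up w A i ≠ 0 :=
      mul_ne_zero (mul_ne_zero (hne _ (by omega)) (hne _ (by omega))) (hne _ (by omega))
    have f1 : r i - 2 * r (i + 1) + r (i + 2) = 0 := by
      apply mul_left_cancel₀ hprod
      linear_combination e1
    have f2 : r (i + 2) * r (i + 1) - 2 * (r (i + 2) * r i) + r (i + 1) * r i = 0 := by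
      apply mul_left_cancel₀ hprod
      linear_combination e2
    have f3 : (r (i + 2) - r i) ^ 2 = 0 := by
      linear_combination (r (i + 2) + r i) * f1 + 2 * f2
    have f4 : r (i + 2) - r i = 0 := by
      rwa [sq_eq_zero_iff] at f3
    have f5 : (2 : K) * (r (i + 1) - r i) = 0 := by linear_combination f4 - f1
    have h2 : (2 : K) ≠ 0 := two_ne_zero
    have f6 := (mul_eq_zero.1 f5).resolve_left h2
    exact ⟨by linear_combination f6, by linear_combination f4⟩
  have hconst : ∀ i < d, r i = r 0 := by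
    intro i
    induction i with
    | zero => intro _; rfl
    | succ i ih =>
      intro hi
      rcases Nat.lt_or_ge (i + 2) d with h | h
      · rw [(step i (by omega)).1, ih (by omega)]
      · obtain ⟨j, rfl⟩ : ∃ j, i = j + 1 := ⟨i - 1, by omega⟩
        have h3 := step j (by omega)
        rw [show j + 1 + 1 = j + 2 by ring, h3.2, ← h3.1, ih (by omega)]
  refine ⟨r 0, hr0 0 (by omega), fun i hi => by rw [hr' i hi, hconst i hi], ?_⟩
  have hC0 : up w C 0 = r 0 * up w A 0 := hr' 0 (by omega)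
  have hC1 : up w C 1 = r 0 * up w A 1 := by rw [hr' 1 (by omega), hconst 1 (by omega)]
  have hd0 : nc w 2 (nv w 0) = 0 := nc_ne w (by omega)
  have hd1 : nc w 2 (nv w 1) = 0 := nc_ne w (by omega)
  have hd2 : nc w 2 (nv w 2) = 1 := nc_self w (by omega)
  have hd3 : nc w 2 (nv w 3) = 0 := nc_ne w (by omega)
  have a0 := col_zero hA.1
  have a1 : A (nv w 1) = dn w A 0 • nv w 0 + md w A 1 • nv w 1 + up w A 1 • nv w 2 :=
    col_succ hA.1 0
  have a2 : A (nv w 2) = dn w A 1 • nv w 1 + md w A 2 • nv w 2 + up w A 2 • nv w 3 :=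
    col_succ hA.1 1
  have b0 := col_zero hC.1
  have b1 : C (nv w 1) = dn w C 0 • nv w 0 + md w C 1 • nv w 1 + up w C 1 • nv w 2 :=
    col_succ hC.1 0
  have b2 : C (nv w 2) = dn w C 1 • nv w 1 + md w C 2 • nv w 2 + up w C 2 • nv w 3 :=
    col_succ hC.1 1
  have e1 := congrArg (fun T : Module.End K V => nc w 2 (T (nv w 0))) h1
  have e2 := congrArg (fun T : Module.End K V => nc w 2 (T (nv w 0))) h2
  simp only [FF, LinearMap.add_apply, LinearMap.sub_apply, LinearMap.smul_apply,
    Module.End.mul_apply, Module.End.one_apply, map_add, map_sub, map_smul, smul_eq_mul,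
    a0, a1, a2, b0, b1, b2, hd0, hd1, hd2, hd3, hC0, hC1] at e1 e2
  have hne2 : up w A 0 * up w A 1 ≠ 0 := mul_ne_zero (hne 0 (by omega)) (hne 1 (by omega))
  set y0 := md w A 0
  set y1 := md w A 1
  set y2 := md w A 2
  set z0 := md w C 0
  set z1 := md w C 1
  set z2 := md w C 2
  have f1 : z0 - 2 * z1 + z2 - r 0 * (y0 - 2 * y1 + y2) - 2 * γ * r 0 = γ' := by
    apply mul_left_cancel₀ hne2
    linear_combination e1
  have f2 : r 0 * (y0 - 2 * y1 + y2) - (z0 - 2 * z1 + z2) - 2 * γ' = γ * r 0 := by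
    apply mul_left_cancel₀ (mul_ne_zero (hr0 0 (by omega)) hne2)
    linear_combination e2
  have h3 : (3 : K) ≠ 0 := three_ne_zero
  apply mul_left_cancel₀ h3
  linear_combination - f1 - f2

end Pool.Agent.Helper8LeonardPos
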