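import Pool.Agent.Helper8_LeonardPos.Equit

set_option autoImplicit false

/-!
Raising and lowering maps on a basis, the module structure they define, and the equitable form.
-/

namespace Pool.Agent.Helper8LeonardPos

open Module Pool.Agent.Helper8Leonard

universe u v

variable {K : Type u} [Field K] {V : Type v} [AddCommGroup V] [Module K V] {d : ℕ}

/-- `A, B, C` are expressed through an equitable basis of `sl₂` acting irreducibly. -/
def EqForm (A B C : Module.End K V) : Prop :=
  ∃ (_ : LieRingModule (SL2 K) V) (_ : LieModule K (SL2 K) V),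
    LieModule.IsIrreducible K (SL2 K) V ∧ ∃ x y z : SL2 K, IsEquitable x y z ∧
      A ∈ Submodule.span K ({1, LieModule.toEnd K (SL2 K) V x, LieModule.toEnd K (SL2 K) V y,
        LieModule.toEnd K (SL2 K) V x * LieModule.toEnd K (SL2 K) V y} : Set (Module.End K V)) ∧
      B ∈ Submodule.span K ({1, LieModule.toEnd K (SL2 K) V y, LieModule.toEnd K (SL2 K) V z,
        LieModule.toEnd K (SL2 K) V y * LieModule.toEnd K (SL2 K) V z} : Set (Module.End K V)) ∧
      C ∈ Submodule.span K ({1, LieModule.toEnd K (SL2 K) V z, LieModule.toEnd K (SL2 K) V x,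
        LieModule.toEnd K (SL2 K) V z * LieModule.toEnd K (SL2 K) V x} : Set (Module.End K V))

lemma mem_span4 {p q r t X : Module.End K V} (c0 c1 c2 c3 : K)
    (h : X = c0 • p + c1 • q + c2 • r + c3 • t) :
    X ∈ Submodule.span K ({p, q, r, t} : Set (Module.End K V)) := by
  rw [h]
  refine Submodule.add_mem _ (Submodule.add_mem _ (Submodule.add_mem _ ?_ ?_) ?_) ?_
  · exact Submodule.smul_mem _ _ (Submodule.subset_span (by simp))
  · exact Submodule.smul_mem _ _ (Submodule.subset_span (by simp))
  · exact Submodule.smul_mem _ _ (Submodule.subset_span (by simp))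
  · exact Submodule.smul_mem _ _ (Submodule.subset_span (by simp))

/-- The invariant subspaces of a string of weight vectors. -/
lemma irred_string [CharZero K] {s : Basis (Fin (d + 1)) K V} {ν μ : ℕ → K}
    (hνμ : ∀ i < d, ν i * μ (i + 1) ≠ 0) {n m : Module.End K V}
    (hn : ∀ i, n (nv s i) = ν i • nv s (i + 1))
    (hm : ∀ i < d, m (nv s (i + 1)) = μ (i + 1) • nv s i)
    (W : Submodule K V) (hWn : ∀ t ∈ W, n t ∈ W) (hWm : ∀ t ∈ W, m t ∈ W) (hW : W ≠ ⊥) :
    W = ⊤ := by
  have htri : IsTri s n := by
    intro i j hij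
    unfold ent
    rw [hn j, map_smul, nc_ne s (by omega), smul_zero]
  have hrow : ∀ i < d, ∀ t, nc s (i + 1) (n t) = ν i * nc s i t := by
    intro i hi t
    rw [row_succ htri i t]
    have h1 : up s n i = ν i := by
      unfold up ent
      rw [hn i, map_smul, nc_self s (by omega), smul_eq_mul, mul_one]
    have h2 : md s n (i + 1) = 0 := by
      unfold md ent
      rw [hn (i + 1), map_smul, nc_ne s (by omega), smul_zero]
    have h3 : dn s n (i + 1) = 0 := by
      unfold dn ent
      rw [hn (i + 1 + 1), map_smul, nc_ne s (by omega), smul_zero]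
    rw [h1, h2, h3]
    ring
  have hrow0 : ∀ t, nc s 0 (n t) = 0 := by
    intro t
    rw [row_zero htri t]
    have h2 : md s n 0 = 0 := by
      unfold md ent
      rw [hn 0, map_smul, nc_ne s (by omega), smul_zero]
    have h3 : dn s n 0 = 0 := by
      unfold dn ent
      rw [hn (0 + 1), map_smul, nc_ne s (by omega), smul_zero]
    rw [h2, h3]
    ring
  have hν : ∀ i < d, ν i ≠ 0 := fun i hi => left_ne_zero_of_mul (hνμ i hi)
  have hμ : ∀ i < d, μ (i + 1) ≠ 0 := fun i hi => right_ne_zero_of_mul (hνμ i hi)
  have key : ∀ k ≤ d, ∀ t ∈ W, (∀ i < d - k, nc s i t = 0) → t ≠ 0 → nv s d ∈ W := by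
    intro k
    induction k with
    | zero =>
      intro _ t ht h0 hne
      have e : t = nc s d t • nv s d := by
        conv_lhs => rw [expand s t]
        rw [Finset.sum_eq_single d]
        · intro i hi hid
          rw [Finset.mem_range] at hi
          rw [h0 i (by omega), zero_smul]
        · intro h
          exact absurd (Finset.mem_range.2 (by omega)) h
      have hc : nc s d t ≠ 0 := by
        intro hc
        rw [hc, zero_smul] at e
        exact hne e
      have : nv s d = (nc s d t)⁻¹ • t := by
        conv_rhs => rw [e]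
        rw [map_smul, nc_self s le_rfl, smul_eq_mul, mul_one, smul_smul, inv_mul_cancel₀ hc,
          one_smul]
      rw [this]
      exact W.smul_mem _ ht
    | succ k ih =>
      intro hk t ht h0 hne
      by_cases hc : nc s (d - (k + 1)) t = 0
      · apply ih (by omega) t ht _ hne
        intro i hi
        rcases Nat.lt_or_ge i (d - (k + 1)) with h | h
        · exact h0 i h
        · rw [show i = d - (k + 1) by omega]; exact hc
      · apply ih (by omega) (n t) (hWn t ht)
        · intro i hi
          rcases i with _ | i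
          · exact hrow0 t
          · rw [hrow i (by omega), h0 i (by omega), mul_zero]
        · intro h
          have e := hrow (d - (k + 1)) (by omega) t
          rw [h, map_zero] at e
          rcases mul_eq_zero.1 e.symm with h' | h'
          · exact hν _ (by omega) h'
          · exact hc h'
  obtain ⟨t, ht, hne⟩ := W.ne_bot_iff.1 hW
  have hd : nv s d ∈ W := key d le_rfl t ht (fun i hi => by omega) hne
  have hall : ∀ k ≤ d, nv s (d - k) ∈ W := by
    intro k
    induction k with
    | zero => intro _; exact hd
    | succ k ih =>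
      intro hk
      have h1 := hWm _ (ih (by omega))
      have h2 := hm (d - (k + 1)) (by omega)
      rw [show d - (k + 1) + 1 = d - k by omega] at h2
      rw [h2] at h1
      have h3 : nv s (d - (k + 1)) = (μ (d - k))⁻¹ • (μ (d - k) • nv s (d - (k + 1))) := by
        rw [smul_smul, inv_mul_cancel₀, one_smul]
        have := hμ (d - (k + 1)) (by omega)
        rwa [show d - (k + 1) + 1 = d - k by omega] at this
      rw [h3]
      exact W.smul_mem _ h1
  rw [eq_top_iff]
  intro t _
  rw [expand s t]
  apply W.sum_mem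
  intro i hi
  rw [Finset.mem_range] at hi
  have := hall (d - i) (by omega)
  rw [show d - (d - i) = i by omega] at this
  exact W.smul_mem _ this

/-- Operators of a string. -/
theorem exists_string [CharZero K] (s : Basis (Fin (d + 1)) K V) (ν μ : ℕ → K)
    (hνμ : ∀ i < d, ν i * μ (i + 1) = - 4 * ((i : K) + 1) * ((d : K) - i)) :
    ∃ y n m : Module.End K V,
      (∀ i, y (nv s i) = ((d : K) - 2 * i) • nv s i) ∧
      (∀ i, n (nv s i) = ν i • nv s (i + 1)) ∧
      m (nv s 0) = 0 ∧ (∀ i < d, m (nv s (i + 1)) = μ (i + 1) • nv s i) ∧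
      n * y - y * n = (2 : K) • n ∧ y * m - m * y = (2 : K) • m ∧
      m * n = y * y - (2 : K) • y - ((d : K) * (d + 2)) • 1 ∧
      n * m - m * n = (4 : K) • y := by
  obtain ⟨y, hy⟩ := exists_end s (fun i => ((d : K) - 2 * i) • nv s i)
  obtain ⟨n, hn⟩ := exists_end s (fun i => ν i • nv s (i + 1))
  obtain ⟨m, hm⟩ := exists_end s (fun i => if i = 0 then 0 else μ i • nv s (i - 1))
  have hy' : ∀ i, y (nv s i) = ((d : K) - 2 * i) • nv s i := by
    intro i
    rcases Nat.lt_or_ge d i with h | h
    · rw [nv_gt s h, map_zero, smul_zero]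
    · exact hy i h
  have hn' : ∀ i, n (nv s i) = ν i • nv s (i + 1) := by
    intro i
    rcases Nat.lt_or_ge d i with h | h
    · rw [nv_gt s h, nv_gt s (i := i + 1) (by omega), map_zero, smul_zero]
    · exact hn i h
  have hm0 : m (nv s 0) = 0 := by rw [hm 0 (by omega)]; simp
  have hm' : ∀ i < d, m (nv s (i + 1)) = μ (i + 1) • nv s i := by
    intro i hi
    rw [hm (i + 1) (by omega)]
    simp
  have hmn : m * n = y * y - (2 : K) • y - ((d : K) * (d + 2)) • 1 := by
    apply end_ext s
    intro i hi
    simp only [Module.End.mul_apply, LinearMap.sub_apply, LinearMap.smul_apply,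
      Module.End.one_apply, hn' i, hy' i, map_smul]
    rcases Nat.lt_or_ge i d with h | h
    · rw [hm' i h]
      linear_combination (norm := module) (hνμ i h) • nv s i
    · have : i = d := by omega
      subst this
      rw [nv_gt s (i := i + 1) (by omega), map_zero, smul_zero]
      module
  refine ⟨y, n, m, hy', hn', hm0, hm', ?_, ?_, hmn, ?_⟩
  · apply end_ext s
    intro i hi
    simp only [Module.End.mul_apply, LinearMap.sub_apply, LinearMap.smul_apply, hn' i, hy' i,
      hy' (i + 1), map_smul]
    push_cast
    module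
  · apply end_ext s
    intro i hi
    rcases i with _ | i
    · simp only [Module.End.mul_apply, LinearMap.sub_apply, LinearMap.smul_apply, hy' 0,
        map_smul, hm0, map_zero, smul_zero, sub_zero]
    · simp only [Module.End.mul_apply, LinearMap.sub_apply, LinearMap.smul_apply, hy' (i + 1),
        map_smul, hm' i (by omega), hy' i]
      push_cast
      module
  · rw [hmn]
    apply end_ext s
    intro i hi
    rcases i with _ | i
    · simp only [Module.End.mul_apply, LinearMap.sub_apply, LinearMap.smul_apply, hy' 0,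
        map_smul, hm0, map_zero, Module.End.one_apply]
      push_cast
      module
    · simp only [Module.End.mul_apply, LinearMap.sub_apply, LinearMap.smul_apply, hy' (i + 1),
        map_smul, hm' i (by omega), hn' i, Module.End.one_apply]
      push_cast
      linear_combination (norm := module) (hνμ i (by omega)) • nv s (i + 1)

/-- From a string and expressions of the three maps to the equitable form. -/
theorem eqForm_of [CharZero K] (s : Basis (Fin (d + 1)) K V) (ν μ : ℕ → K)
    (hνμ : ∀ i < d, ν i * μ (i + 1) = - 4 * ((i : K) + 1) * ((d : K) - i))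
    (A B C : Module.End K V)
    (h : ∀ y n m : Module.End K V,
      (∀ i, y (nv s i) = ((d : K) - 2 * i) • nv s i) →
      (∀ i, n (nv s i) = ν i • nv s (i + 1)) →
      m (nv s 0) = 0 → (∀ i < d, m (nv s (i + 1)) = μ (i + 1) • nv s i) →
      n * y - y * n = (2 : K) • n → y * m - m * y = (2 : K) • m →
      m * n = y * y - (2 : K) • y - ((d : K) * (d + 2)) • 1 →
      n * m - m * n = (4 : K) • y →
      ∃ x z : Module.End K V, x = n - y ∧ z = m - y ∧
        (∃ a0 a1 a2 a3 : K, A = a0 • 1 + a1 • x + a2 • y + a3 • (x * y)) ∧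
        (∃ b0 b1 b2 b3 : K, B = b0 • 1 + b1 • y + b2 • z + b3 • (y * z)) ∧
        (∃ c0 c1 c2 c3 : K, C = c0 • 1 + c1 • z + c2 • x + c3 • (z * x))) :
    EqForm A B C := by
  have hfin : Nontrivial V := ⟨⟨nv s 0, 0, nv_ne_zero s (by omega)⟩⟩
  obtain ⟨y, n, m, hy, hn, hm0, hm, r1, r2, r3, r4⟩ := exists_string s ν μ hνμ
  obtain ⟨x, z, hx, hz, ⟨a0, a1, a2, a3, hA⟩, ⟨b0, b1, b2, b3, hB⟩, ⟨c0, c1, c2, c3, hC⟩⟩ :=
    h y n m hy hn hm0 hm r1 r2 r3 r4
  obtain ⟨I1, I2, hirr, X, Y, Z, hE, eX, eY, eZ⟩ := exists_module x y z
    (by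
      rw [hx]
      simp only [sub_mul, mul_sub]
      linear_combination (norm := module) r1)
    (by
      rw [hz]
      simp only [sub_mul, mul_sub]
      linear_combination (norm := module) r2)
    (by
      rw [hx, hz]
      simp only [sub_mul, mul_sub]
      linear_combination (norm := module) r1 + r2 - r4)
    (by
      intro W hWx hWy hWz hW
      apply irred_string (s := s) (ν := ν) (μ := μ) ?_ hn hm W ?_ ?_ hW
      · intro i hi
        rw [hνμ i hi]
        have h1 : ((i : K) + 1) ≠ 0 := by exact_mod_cast Nat.succ_ne_zero i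
        have h2 : ((d : K) - i) ≠ 0 := by
          rw [sub_ne_zero]
          exact_mod_cast (by omega : d ≠ i)
        have h3 : (-4 : K) ≠ 0 := neg_ne_zero.2 (by norm_num)
        exact mul_ne_zero (mul_ne_zero h3 h1) h2
      · intro t ht
        have : n t = x t + y t := by rw [hx, LinearMap.sub_apply]; abel
        rw [this]
        exact W.add_mem (hWx t ht) (hWy t ht)
      · intro t ht
        have : m t = z t + y t := by rw [hz, LinearMap.sub_apply]; abel
        rw [this]
        exact W.add_mem (hWz t ht) (hWy t ht))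
  refine ⟨I1, I2, hirr, X, Y, Z, hE, ?_, ?_, ?_⟩
  · rw [eX, eY]; exact mem_span4 a0 a1 a2 a3 hA
  · rw [eY, eZ]; exact mem_span4 b0 b1 b2 b3 hB
  · rw [eX, eZ]; exact mem_span4 c0 c1 c2 c3 hC

end Pool.Agent.Helper8LeonardPos
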