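import Pool.Agent.Helper8_LeonardPos.Ratio

set_option autoImplicit false

/-!
The split basis of a Leonard pair.
-/

namespace Pool.Agent.Helper8LeonardPos

open Module Pool.Agent.Helper8Leonard

universe u v

variable {K : Type u} [Field K] {V : Type v} [AddCommGroup V] [Module K V] {d : ℕ}

/-- The vectors `(A - a_{i-1}) ⋯ (A - a_0) x`. -/
def yy (A : Module.End K V) (a : ℕ → K) (x : V) : ℕ → V
  | 0 => x
  | (i + 1) => A (yy A a x i) - a i • yy A a x i

section

variable {v w : Basis (Fin (d + 1)) K V} {A B : Module.End K V} {a b : ℕ → K}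

lemma yy_coord (hA : Dia v A a) (x : V) (k i : ℕ) :
    nc v k (yy A a x i) = (∏ j ∈ Finset.range i, (a k - a j)) * nc v k x := by
  induction i with
  | zero => simp [yy]
  | succ i ih =>
    simp only [yy, map_sub, map_smul, smul_eq_mul]
    rw [row_dia hA, ih, Finset.prod_range_succ]
    ring

lemma yy_lower (hA : Dia v A a) (x : V) {k i : ℕ} (h : k < i) : nc v k (yy A a x i) = 0 := by
  rw [yy_coord hA, Finset.prod_eq_zero (Finset.mem_range.2 h) (sub_self _), zero_mul]

lemma yy_diag (hA : Dia v A a) (hAw : Irr w A) {i : ℕ} (hi : i ≤ d) :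
    nc v i (yy A a (nv w 0) i) ≠ 0 := by
  rw [yy_coord hA]
  apply mul_ne_zero _ (coord_ne_zero hA hAw i hi)
  rw [Finset.prod_ne_zero_iff]
  intro j hj h
  rw [Finset.mem_range] at hj
  have := dia_inj hA hAw i hi j (by omega) (sub_eq_zero.1 h)
  omega

lemma yy_last (hA : Dia v A a) (x : V) : yy A a x (d + 1) = 0 := by
  apply vec_ext v
  intro k hk
  rw [yy_lower hA x (by omega), map_zero]

lemma yy_supp (hAw : Irr w A) (i : ℕ) : Supp w i (yy A a (nv w 0) i) := by
  induction i with
  | zero => exact supp_nv w 0
  | succ i ih =>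
    intro k hk
    simp only [yy, map_sub, map_smul, smul_eq_mul]
    rw [(ih.map hAw.1) k hk, ih k (by omega)]
    ring

lemma yy_top (hAw : Irr w A) {i : ℕ} (hi : i ≤ d) : nc w i (yy A a (nv w 0) i) ≠ 0 := by
  induction i with
  | zero => simp only [yy]; rw [nc_self w hi]; exact one_ne_zero
  | succ i ih =>
    simp only [yy, map_sub, map_smul, smul_eq_mul]
    rw [(yy_supp hAw i).top hAw.1, (yy_supp hAw i) (i + 1) (by omega), mul_zero, sub_zero]
    exact mul_ne_zero (hAw.2.1 i (by omega)) (ih (by omega))

lemma yy_indep (hA : Dia v A a) (hAw : Irr w A) :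
    LinearIndependent K (fun i : Fin (d + 1) => yy A a (nv w 0) i) := by
  rw [Fintype.linearIndependent_iff]
  intro g hg
  have key : ∀ n : ℕ, ∀ hn : n < d + 1, g ⟨n, hn⟩ = 0 := by
    intro n
    induction n using Nat.strong_induction_on with
    | _ n ih =>
      intro hn
      have e := congrArg (nc v n) hg
      rw [map_sum, map_zero, Finset.sum_eq_single ⟨n, hn⟩] at e
      · rw [map_smul, smul_eq_mul] at e
        exact (mul_eq_zero.1 e).resolve_right (yy_diag hA hAw (by omega))
      · intro j _ hj
        rw [map_smul, smul_eq_mul]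
        rcases Nat.lt_or_ge (j : ℕ) n with h | h
        · have := ih j h j.2
          rw [Fin.eta] at this
          rw [this, zero_mul]
        · have hne : (j : ℕ) ≠ n := fun h' => hj (Fin.ext h')
          rw [yy_lower hA _ (by omega), mul_zero]
      · intro h
        exact absurd (Finset.mem_univ _) h
  intro i
  exact key i i.2

/-- The split basis. -/
theorem exists_split (hAv : Dia v A a) (hBv : Irr v B) (hBw : Dia w B b) (hAw : Irr w A) :
    ∃ (s : Basis (Fin (d + 1)) K V) (φ : ℕ → K),
      (∀ i, A (nv s i) = a i • nv s i + nv s (i + 1)) ∧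
      B (nv s 0) = b 0 • nv s 0 ∧
      (∀ i, B (nv s (i + 1)) = b (i + 1) • nv s (i + 1) + φ (i + 1) • nv s i) ∧
      φ 0 = 0 ∧ φ (d + 1) = 0 ∧ (∀ i, 1 ≤ i → i ≤ d → φ i ≠ 0) ∧ nv s 0 = nv w 0 := by
  have hcard : Fintype.card (Fin (d + 1)) = finrank K V := by
    rw [Module.finrank_eq_card_basis v]
  set s : Basis (Fin (d + 1)) K V :=
    basisOfLinearIndependentOfCardEqFinrank (yy_indep (v := v) (a := a) hAv hAw) hcard with hs
  have hsv : ∀ i ≤ d, nv s i = yy A a (nv w 0) i := by
    intro i hi
    have : nv s i = s ⟨i, by omega⟩ := nv_fin s ⟨i, by omega⟩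
    rw [this, hs, coe_basisOfLinearIndependentOfCardEqFinrank]
  have hA : ∀ i, A (nv s i) = a i • nv s i + nv s (i + 1) := by
    intro i
    rcases Nat.lt_trichotomy i d with h | h | h
    · rw [hsv i (by omega), hsv (i + 1) (by omega)]
      simp only [yy]
      abel
    · have := yy_last (d := d) (v := v) hAv (nv w 0)
      rw [hsv i (by omega), nv_gt s (by omega)]
      rw [h]
      simp only [yy] at this
      rw [sub_eq_zero] at this
      rw [this, add_zero]
    · rw [nv_gt s h, nv_gt s (by omega), map_zero, smul_zero, add_zero]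
  -- coordinates
  have lower : ∀ x : V, ∀ n, (∀ k < n, nc v k x = 0) → ∀ j < n, j ≤ d → nc s j x = 0 := by
    intro x n hx j
    induction j using Nat.strong_induction_on with
    | _ j ih =>
      intro hj hjd
      have e := congrArg (nc v j) (expand s x)
      rw [hx j hj, map_sum, Finset.sum_eq_single j] at e
      · rw [map_smul, smul_eq_mul, hsv j hjd] at e
        exact (mul_eq_zero.1 e.symm).resolve_right (yy_diag hAv hAw hjd)
      · intro l hl hne
        rw [Finset.mem_range] at hl
        rw [map_smul, smul_eq_mul]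
        rcases Nat.lt_or_ge l j with h | h
        · rw [ih l h (by omega) (by omega), zero_mul]
        · rw [hsv l (by omega), yy_lower hAv _ (by omega), mul_zero]
      · intro h
        exact absurd (Finset.mem_range.2 (by omega)) h
  have upper : ∀ x : V, ∀ n, (∀ k, n ≤ k → nc w k x = 0) → ∀ m, ∀ j, n ≤ j → j ≤ d → d - j = m →
      nc s j x = 0 := by
    intro x n hx m
    induction m using Nat.strong_induction_on with
    | _ m ih =>
      intro j hj hjd hm
      have e := congrArg (nc w j) (expand s x)
      rw [hx j hj, map_sum, Finset.sum_eq_single j] at e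
      · rw [map_smul, smul_eq_mul, hsv j hjd] at e
        exact (mul_eq_zero.1 e.symm).resolve_right (yy_top hAw hjd)
      · intro l hl hne
        rw [Finset.mem_range] at hl
        rw [map_smul, smul_eq_mul]
        rcases Nat.lt_or_ge l j with h | h
        · rw [hsv l (by omega), (yy_supp hAw l) j h, mul_zero]
        · rw [ih (d - l) (by omega) l (by omega) (by omega) rfl, zero_mul]
      · intro h
        exact absurd (Finset.mem_range.2 (by omega)) h
  refine ⟨s, fun i => if i = 0 then 0 else dn s B (i - 1), hA, ?_, ?_, if_pos rfl, ?_, ?_, ?_⟩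
  · rw [hsv 0 (by omega)]; exact hBw 0
  · intro i
    beta_reduce
    rw [if_neg (by omega), Nat.add_sub_cancel]
    rcases Nat.lt_or_ge d (i + 1) with hi | hi
    · unfold dn
      rw [nv_gt s hi, map_zero, ent_gt s B (Or.inr hi), smul_zero, zero_smul, add_zero]
    set x := B (nv s (i + 1)) - b (i + 1) • nv s (i + 1) with hx
    have hx1 : ∀ k < i, nc v k x = 0 := by
      intro k hk
      rw [hx, hsv _ hi, map_sub, map_smul, yy_lower hAv _ (by omega), smul_zero, sub_zero]
      rcases k with _ | k
      · rw [row_zero hBv.1, yy_lower hAv _ (by omega), yy_lower hAv _ (by omega)]; ring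
      · rw [row_succ hBv.1, yy_lower hAv _ (by omega), yy_lower hAv _ (by omega),
          yy_lower hAv _ (by omega)]
        ring
    have hx2 : ∀ k, i + 1 ≤ k → nc w k x = 0 := by
      intro k hk
      rw [hx, hsv _ hi, map_sub, map_smul, row_dia hBw, smul_eq_mul]
      rcases Nat.eq_or_lt_of_le hk with h | h
      · rw [← h]; ring
      · rw [(yy_supp hAw (i + 1)) k h]; ring
    have hx3 : x = dn s B i • nv s i := by
      apply vec_ext s
      intro j hj
      rw [map_smul, smul_eq_mul]
      rcases Nat.lt_trichotomy j i with h | h | h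
      · rw [lower x i hx1 j h hj, nc_ne s (by omega), mul_zero]
      · rw [h, nc_self s (by omega), mul_one, hx, map_sub, map_smul, nc_ne s (by omega), smul_zero,
          sub_zero]
        rfl
      · rw [upper x (i + 1) hx2 (d - j) j (by omega) hj rfl, nc_ne s (by omega), mul_zero]
    rw [← hx3, hx]
    abel
  · beta_reduce
    rw [if_neg (by omega), Nat.add_sub_cancel]
    unfold dn
    exact ent_gt s B (by omega)
  · intro i h1 h2 h3
    beta_reduce at h3
    rw [if_neg (by omega)] at h3
    obtain ⟨i, rfl⟩ : ∃ j, i = j + 1 := ⟨i - 1, by omega⟩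
    rw [Nat.add_sub_cancel] at h3
    -- then `B y_{i+1}` has no coordinates before `i + 1`
    have hz : nc s i (B (nv s (i + 1))) = 0 := h3
    have e : nc v i (B (nv s (i + 1))) = dn v B i * nc v (i + 1) (nv s (i + 1)) := by
      rw [hsv _ h2]
      rcases i with _ | i
      · rw [row_zero hBv.1, yy_lower hAv _ (by omega)]; ring
      · rw [row_succ hBv.1, yy_lower hAv _ (by omega), yy_lower hAv (i := i + 1 + 1) _ (by omega)]
        ring
    have hne : nc v i (B (nv s (i + 1))) ≠ 0 := by
      rw [e, hsv _ h2]
      exact mul_ne_zero (hBv.2.2 i (by omega)) (yy_diag hAv hAw h2)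
    have hlow : ∀ k < i, nc v k (B (nv s (i + 1))) = 0 := by
      intro k hk
      rw [hsv _ h2]
      rcases k with _ | k
      · rw [row_zero hBv.1, yy_lower hAv _ (by omega), yy_lower hAv _ (by omega)]; ring
      · rw [row_succ hBv.1, yy_lower hAv _ (by omega), yy_lower hAv _ (by omega),
          yy_lower hAv _ (by omega)]
        ring
    have e2 := congrArg (nc v i) (expand s (B (nv s (i + 1))))
    rw [map_sum, Finset.sum_eq_zero] at e2
    · exact hne e2
    · intro l hl
      rw [Finset.mem_range] at hl
      rw [map_smul, smul_eq_mul]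
      rcases Nat.lt_trichotomy l i with h | h | h
      · rw [lower _ i hlow l h (by omega), zero_mul]
      · rw [h, hz, zero_mul]
      · rw [hsv l (by omega), yy_lower hAv _ h, mul_zero]
  · exact hsv 0 (by omega)

end

end Pool.Agent.Helper8LeonardPos
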